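import Pool.Agent.Helper57.ON.Num
import Pool.Agent.Helper43.LJ.Maj
import Pool.Agent.Helper43.LJ.Lev
import Pool.Agent.Helper37.ON.Fourth

/-! A choice function whose digits can be guessed from the residue and few digits of the sum. -/

namespace Pool.Agent.Helper57.ON

open Finset

open Pool.Agent.Helper57.PC (Fr ch hat e norm_ch norm_e En card_sq_le')
open Pool.Agent.Helper25.RC (repF)
open Pool.Agent.Helper43.LJ (maj floor_fract_dig level_freq)
open Pool.Agent.Helper57.LJ (dig dig_lt)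
open Pool.Agent.Helper37.ON (sum_fourth)

/-- The main theorem, finite form. -/
theorem memory_choice (b : ℕ) (hb : 2 ≤ b) (w h : ℕ) (ε δ : ℝ) (hε : 0 < ε) (hδ : 0 < δ) :
    ∃ c : ℝ, 0 < c ∧ ∃ K₀ : ℕ, ∀ K ≥ K₀, ∀ (S D : Finset ℕ) (f : ℕ → ℕ) (J : ℕ → ℕ → ℕ)
      (Q : ℕ → Finset ℕ), S ⊆ range (b ^ K) → D ⊆ range (b ^ K) → δ * (b : ℝ) ^ K ≤ #D →
      (∀ n ∈ D, f n ≤ n ∧ f n ∈ S ∧ n - f n ∈ S) →
      (∀ i < K, #(Q i) ≤ w ∧ DependsMem b (b ^ (i + h + 1)) (Q i) (J i)) →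
      (1 / b + ε) * K * #D ≤ ∑ n ∈ D, (#{i ∈ range K | dig b i (f n) = J i n} : ℝ) →
      c * √K * (b : ℝ) ^ K ≤ ∑ n ∈ range (2 * b ^ K), ((repF S n : ℕ) : ℝ) ^ 2 := by
  classical
  have hb0 : (0 : ℝ) < b := by
    have : 0 < b := by omega
    exact_mod_cast this
  obtain ⟨H, c, hc⟩ := maj b hb (ε / 4) (by positivity)
  set Ks : Finset ℤ := Finset.Icc (-(H : ℤ)) H with hKs
  set M : ℝ := 1 + ∑ d ∈ range b, ∑ k ∈ Ks, ‖c d k‖ with hM
  have hM1 : 1 ≤ M := by
    rw [hM]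
    have : 0 ≤ ∑ d ∈ range b, ∑ k ∈ Ks, ‖c d k‖ :=
      Finset.sum_nonneg fun _ _ => Finset.sum_nonneg fun _ _ => norm_nonneg _
    linarith
  have hM0 : 0 < M := by linarith
  have hcM : ∀ d < b, ∀ k ∈ Ks, ‖c d k‖ ≤ M := by
    intro d hd k hk
    have h1 := Finset.single_le_sum (f := fun k => ‖c d k‖) (fun _ _ => norm_nonneg _) hk
    have h2 := Finset.single_le_sum (f := fun d => ∑ k ∈ Ks, ‖c d k‖)
      (fun _ _ => Finset.sum_nonneg fun _ _ => norm_nonneg _) (mem_range.2 hd)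
    have h3 : ‖c d k‖ ≤ ∑ d ∈ range b, ∑ k ∈ Ks, ‖c d k‖ := h1.trans h2
    linarith
  set NK : ℝ := (#Ks : ℝ) + 1 with hNK
  have hNK0 : 0 < NK := by positivity
  set ρ : ℝ := min 1 (ε * δ / (8 * NK * M * (w + 1))) with hρ
  have hρ0 : 0 < ρ := lt_min one_pos (by positivity)
  have hρ1 : ρ ≤ 1 := min_le_left _ _
  have hρ2 : NK * (M * (2 * w * ρ)) ≤ ε / 4 * δ := by
    have h1 : ρ ≤ ε * δ / (8 * NK * M * (w + 1)) := min_le_right _ _
    rw [le_div_iff₀ (by positivity)] at h1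
    have h2 : NK * (M * (2 * w * ρ)) ≤ ρ * (8 * NK * M * (w + 1)) / 4 := by
      have : ρ * (8 * NK * M * (w + 1)) / 4 = NK * (M * (2 * w * ρ)) + 2 * ρ * NK * M := by ring
      rw [this]
      have : 0 ≤ 2 * ρ * NK * M := by positivity
      linarith
    linarith
  set Λ : ℝ := (b / √ρ) ^ w with hΛ
  have hsq0 : 0 < √ρ := Real.sqrt_pos.2 hρ0
  have hΛ0 : 0 < Λ := by positivity
  obtain ⟨ε', hε'⟩ : ∃ ε' : ℝ, ε' = ε / 8 / (NK * M) := ⟨_, rfl⟩
  have hε'0 : 0 < ε' := by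
    rw [hε']
    positivity
  have hε'1 : ε' * (NK * M) = ε / 8 := by
    rw [hε']
    exact div_mul_cancel₀ _ (by positivity)
  obtain ⟨c', hc', hfin⟩ := final_sqrt ((ε' / 2) ^ 2 * δ) Λ ((b : ℝ) ^ (h + 1 + H) * (h + 1 + H))
    (by positivity) hΛ0 (by positivity)
  obtain ⟨K₁, hK₁⟩ := exists_nat_ge (4 * (NK * (h + 1) * M) / ε)
  obtain ⟨K₂, hK₂⟩ := exists_nat_ge (2 * H / ε')
  refine ⟨c' / 2, by positivity, max (max K₁ K₂) (2 * (h + 1 + H) + 1),
    fun K hK S D f J Q hS hD hDc hf hQ hhit => ?_⟩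
  have hKK₁ : K₁ ≤ K := (le_max_left _ _).trans ((le_max_left _ _).trans hK)
  have hKK₂ : K₂ ≤ K := (le_max_right _ _).trans ((le_max_left _ _).trans hK)
  have hKH : 2 * (h + 1 + H) + 1 ≤ K := (le_max_right _ _).trans hK
  have hK0 : 0 < K := by omega
  have hK0' : (0 : ℝ) < K := by exact_mod_cast hK0
  have hKε : 2 * H ≤ ε' * K := by
    have h1 : 2 * H / ε' ≤ K := hK₂.trans (by exact_mod_cast hKK₂)
    rw [div_le_iff₀ hε'0] at h1
    linarith
  have hKM : NK * (h + 1) * M ≤ ε / 4 * K := by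
    have h1 : 4 * (NK * (h + 1) * M) / ε ≤ K := hK₁.trans (by exact_mod_cast hKK₁)
    rw [div_le_iff₀ hε] at h1
    linarith
  set T : ℝ := (#D : ℝ) with hT
  have hT0 : 0 < T := lt_of_lt_of_le (by positivity) hDc
  -- the coefficients
  set C : ℕ → ℤ → ℕ → ℂ := fun i k n => if J i n < b then c (J i n) k else 0 with hC
  have hCM : ∀ i k, k ∈ Ks → ∀ n, ‖C i k n‖ ≤ M := by
    intro i k hk n
    simp only [hC]
    split_ifs with h
    · exact hcM _ h k hk
    · rw [norm_zero]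
      exact hM0.le
  set z : ℕ → ℤ → ℕ → ℂ := fun i k n => e (k * ((f n : ℝ) / (b : ℝ) ^ (i + 1))) with hz
  have hz1 : ∀ i k n, ‖z i k n‖ = 1 := fun i k n => norm_e _
  have hpt : ∀ i n, (if dig b i (f n) = J i n then (1 : ℝ) else 0) ≤
      (∑ k ∈ Ks, C i k n * z i k n).re := by
    intro i n
    by_cases h : J i n < b
    · have h1 := (hc (J i n) h).1 ((f n : ℝ) / (b : ℝ) ^ (i + 1))
      rw [floor_fract_dig b hb] at h1
      simp only [hC, hz, if_pos h]
      exact h1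
    · have h1 : dig b i (f n) ≠ J i n := fun h2 => h (h2 ▸ dig_lt hb _ _)
      rw [if_neg h1]
      simp only [hC, if_neg h, zero_mul, Finset.sum_const_zero, Complex.zero_re, le_refl]
  have h0mem : (0 : ℤ) ∈ Ks := by
    rw [hKs, Finset.mem_Icc]
    constructor <;> simp
  have hzero : ∀ i n, (C i 0 n * z i 0 n).re ≤ 1 / b + ε / 4 := by
    intro i n
    have hz0 : z i 0 n = 1 := by
      simp only [hz]
      unfold Pool.Agent.Helper57.PC.e
      simp
    rw [hz0, mul_one]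
    simp only [hC]
    split_ifs with h
    · exact (hc _ h).2
    · rw [Complex.zero_re]
      positivity
  -- summing up
  have hsum1 : 3 * ε / 4 * K * T ≤
      ∑ k ∈ Ks.erase 0, ∑ i ∈ range K, ‖∑ n ∈ D, C i k n * z i k n‖ := by
    have h1 : ∑ n ∈ D, (#{i ∈ range K | dig b i (f n) = J i n} : ℝ) ≤
        ∑ n ∈ D, ∑ i ∈ range K, (∑ k ∈ Ks, C i k n * z i k n).re := by
      refine Finset.sum_le_sum fun n _ => ?_
      rw [Finset.card_filter]
      push_cast
      exact Finset.sum_le_sum fun i _ => hpt i n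
    have h2 : ∑ n ∈ D, ∑ i ∈ range K, (∑ k ∈ Ks, C i k n * z i k n).re =
        ∑ n ∈ D, ∑ i ∈ range K, (C i 0 n * z i 0 n).re +
        ∑ k ∈ Ks.erase 0, ∑ i ∈ range K, (∑ n ∈ D, C i k n * z i k n).re := by
      have h3 : ∀ n ∈ D, ∑ i ∈ range K, (∑ k ∈ Ks, C i k n * z i k n).re =
          ∑ i ∈ range K, (C i 0 n * z i 0 n).re +
            ∑ k ∈ Ks.erase 0, ∑ i ∈ range K, (C i k n * z i k n).re := by
        intro n _
        rw [Finset.sum_comm (s := Ks.erase 0), ← Finset.sum_add_distrib]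
        refine Finset.sum_congr rfl fun i _ => ?_
        rw [← Finset.add_sum_erase Ks _ h0mem, Complex.add_re, Complex.re_sum]
      rw [Finset.sum_congr rfl h3, Finset.sum_add_distrib]
      congr 1
      rw [Finset.sum_comm]
      refine Finset.sum_congr rfl fun k _ => ?_
      rw [Finset.sum_comm]
      refine Finset.sum_congr rfl fun i _ => ?_
      rw [Complex.re_sum]
    have h4 : ∑ n ∈ D, ∑ i ∈ range K, (C i 0 n * z i 0 n).re ≤ (1 / b + ε / 4) * K * T := by
      have h5 : ∑ n ∈ D, ∑ i ∈ range K, (C i 0 n * z i 0 n).re ≤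
          ∑ _n ∈ D, ∑ _i ∈ range K, (1 / (b : ℝ) + ε / 4) :=
        Finset.sum_le_sum fun n _ => Finset.sum_le_sum fun i _ => hzero i n
      refine h5.trans (le_of_eq ?_)
      rw [Finset.sum_const, Finset.sum_const, card_range, nsmul_eq_mul, nsmul_eq_mul, ← hT]
      ring
    have h6 : ∑ k ∈ Ks.erase 0, ∑ i ∈ range K, (∑ n ∈ D, C i k n * z i k n).re ≤
        ∑ k ∈ Ks.erase 0, ∑ i ∈ range K, ‖∑ n ∈ D, C i k n * z i k n‖ :=
      Finset.sum_le_sum fun k _ => Finset.sum_le_sum fun i _ => Complex.re_le_norm _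
    have h7 := hhit.trans h1
    rw [h2] at h7
    have h8 : (1 / (b : ℝ) + ε) * K * T = (1 / b + ε / 4) * K * T + 3 * ε / 4 * K * T := by ring
    rw [h8] at h7
    linarith
  -- approximation
  have happ : ∀ i k, ∃ u : ℕ → ℂ, (∀ n, ‖u n‖ ≤ 1) ∧ (i + h + 1 ≤ K → k ∈ Ks →
      WP b K (b ^ (i + h + 1)) Λ u ∧ ‖∑ n ∈ D, C i k n * z i k n‖ ≤
        M * (‖∑ n ∈ D, u n * z i k n‖ + 2 * w * ρ * (b : ℝ) ^ K)) := by
    intro i k
    by_cases hik : i + h + 1 ≤ K ∧ k ∈ Ks
    · obtain ⟨hi, hk⟩ := hik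
      obtain ⟨u, hu1, hu2, hu3⟩ := mem_mean (K := K) hb hρ0 hρ1 hi (hQ i (by omega)).1
        (fun n => C i k n / M) (by
          intro m n hmod hmn
          simp only [hC]
          rw [(hQ i (by omega)).2 m n hmod hmn]) (by
          intro n
          rw [norm_div, Complex.norm_real, Real.norm_of_nonneg hM0.le, div_le_one hM0]
          exact hCM i k hk n)
      refine ⟨u, hu2, fun _ _ => ⟨hu1, ?_⟩⟩
      have e1 : ∑ n ∈ D, C i k n * z i k n = M * (∑ n ∈ D, u n * z i k n +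
          ∑ n ∈ D, (C i k n / M - u n) * z i k n) := by
        rw [← Finset.sum_add_distrib, Finset.mul_sum]
        refine Finset.sum_congr rfl fun n _ => ?_
        have : (M : ℂ) ≠ 0 := by exact_mod_cast hM0.ne'
        field_simp
        ring
      rw [e1, norm_mul, Complex.norm_real, Real.norm_of_nonneg hM0.le]
      refine mul_le_mul_of_nonneg_left ?_ hM0.le
      refine (norm_add_le _ _).trans (add_le_add le_rfl ?_)
      refine (norm_sum_le _ _).trans ?_
      have e2 : ∀ n ∈ D, ‖(C i k n / M - u n) * z i k n‖ = ‖C i k n / M - u n‖ := by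
        intro n _
        rw [norm_mul, hz1, mul_one]
      rw [Finset.sum_congr rfl e2]
      exact (Finset.sum_le_sum_of_subset_of_nonneg hD fun _ _ _ => norm_nonneg _).trans hu3
    · exact ⟨0, fun n => by simp, fun h1 h2 => absurd ⟨h1, h2⟩ hik⟩
  choose u hu1 hu using happ
  set Gh : ℤ → ℕ → ℝ := fun k i => ‖∑ n ∈ D, u i k n * z i k n‖ with hGh
  have hGT : ∀ k i, Gh k i ≤ T := by
    intro k i
    simp only [hGh]
    refine (norm_sum_le _ _).trans ?_
    have e2 : ∀ n ∈ D, ‖u i k n * z i k n‖ ≤ 1 := by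
      intro n _
      rw [norm_mul, hz1, mul_one]
      exact hu1 i k n
    refine (Finset.sum_le_sum e2).trans (le_of_eq ?_)
    rw [Finset.sum_const, nsmul_eq_mul, mul_one]
  have hCT : ∀ i, ∀ k ∈ Ks, ‖∑ n ∈ D, C i k n * z i k n‖ ≤ M * T := by
    intro i k hk
    refine (norm_sum_le _ _).trans ?_
    have e2 : ∀ n ∈ D, ‖C i k n * z i k n‖ ≤ M := by
      intro n _
      rw [norm_mul, hz1, mul_one]
      exact hCM i k hk n
    refine (Finset.sum_le_sum e2).trans (le_of_eq ?_)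
    rw [Finset.sum_const, nsmul_eq_mul, mul_comm]
  have hcard1 : (#(Ks.erase 0) : ℝ) ≤ NK := by
    have : #(Ks.erase 0) ≤ #Ks := Finset.card_le_card (Finset.erase_subset _ _)
    have : (#(Ks.erase 0) : ℝ) ≤ #Ks := by exact_mod_cast this
    linarith
  set K' : ℕ := K - (h + 1) with hK'
  have hK'K : K' + (h + 1) = K := by omega
  have hK'r : (K' : ℝ) ≤ K := by exact_mod_cast (Nat.sub_le _ _)
  have hsum2 : ε / 4 * K * T ≤ M * ∑ k ∈ Ks.erase 0, ∑ i ∈ range K', Gh k i := by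
    have h1 : ∑ k ∈ Ks.erase 0, ∑ i ∈ range K, ‖∑ n ∈ D, C i k n * z i k n‖ ≤
        ∑ k ∈ Ks.erase 0, (∑ i ∈ range K', (M * Gh k i + M * (2 * w * ρ) * (b : ℝ) ^ K) +
          (h + 1) * (M * T)) := by
      refine Finset.sum_le_sum fun k hk => ?_
      have hk' := Finset.mem_of_mem_erase hk
      have h2 : ∑ i ∈ range K, ‖∑ n ∈ D, C i k n * z i k n‖ =
          ∑ i ∈ range K', ‖∑ n ∈ D, C i k n * z i k n‖ +
            ∑ i ∈ range (h + 1), ‖∑ n ∈ D, C (K' + i) k n * z (K' + i) k n‖ := by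
        rw [← Finset.sum_range_add, hK'K]
      rw [h2]
      refine add_le_add (Finset.sum_le_sum fun i hi => ?_) ?_
      · have h3 := (hu i k (by rw [mem_range] at hi; omega) hk').2
        simp only [hGh]
        linarith
      · refine (Finset.sum_le_sum fun i _ => hCT (K' + i) k hk').trans (le_of_eq ?_)
        rw [Finset.sum_const, card_range, nsmul_eq_mul]
        push_cast
        ring
    have h3 : ∑ k ∈ Ks.erase 0, (∑ i ∈ range K', (M * Gh k i + M * (2 * w * ρ) * (b : ℝ) ^ K) +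
          (h + 1) * (M * T)) = M * ∑ k ∈ Ks.erase 0, ∑ i ∈ range K', Gh k i +
          #(Ks.erase 0) * (K' * (M * (2 * w * ρ) * (b : ℝ) ^ K) + (h + 1) * (M * T)) := by
      simp_rw [Finset.sum_add_distrib, ← Finset.mul_sum, Finset.sum_const, card_range,
        nsmul_eq_mul]
      ring
    have h4 : (#(Ks.erase 0) : ℝ) * (K' * (M * (2 * w * ρ) * (b : ℝ) ^ K) + (h + 1) * (M * T)) ≤
        ε / 2 * K * T := by
      have h5 : NK * (K * (M * (2 * w * ρ) * (b : ℝ) ^ K)) ≤ ε / 4 * K * T := by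
        calc NK * (K * (M * (2 * w * ρ) * (b : ℝ) ^ K))
            = (NK * (M * (2 * w * ρ))) * (K * (b : ℝ) ^ K) := by ring
          _ ≤ (ε / 4 * δ) * (K * (b : ℝ) ^ K) := mul_le_mul_of_nonneg_right hρ2 (by positivity)
          _ = ε / 4 * K * (δ * (b : ℝ) ^ K) := by ring
          _ ≤ ε / 4 * K * T := mul_le_mul_of_nonneg_left hDc (by positivity)
      have h6 : NK * ((h + 1) * (M * T)) ≤ ε / 4 * K * T := by
        calc NK * ((h + 1) * (M * T)) = NK * (h + 1) * M * T := by ring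
          _ ≤ ε / 4 * K * T := mul_le_mul_of_nonneg_right hKM hT0.le
      calc (#(Ks.erase 0) : ℝ) * (K' * (M * (2 * w * ρ) * (b : ℝ) ^ K) + (h + 1) * (M * T)) ≤
            NK * (K' * (M * (2 * w * ρ) * (b : ℝ) ^ K) + (h + 1) * (M * T)) :=
            mul_le_mul_of_nonneg_right hcard1 (by positivity)
        _ ≤ NK * (K * (M * (2 * w * ρ) * (b : ℝ) ^ K) + (h + 1) * (M * T)) := by
            refine mul_le_mul_of_nonneg_left ?_ hNK0.le
            have : K' * (M * (2 * w * ρ) * (b : ℝ) ^ K) ≤ K * (M * (2 * w * ρ) * (b : ℝ) ^ K) :=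
              mul_le_mul_of_nonneg_right hK'r (by positivity)
            linarith
        _ ≤ ε / 2 * K * T := by linarith
    have h5 := hsum1.trans h1
    rw [h3] at h5
    have h6 : 3 * ε / 4 * K * T = ε / 4 * K * T + ε / 2 * K * T := by ring
    rw [h6] at h5
    linarith
  have hpig : ∃ k ∈ Ks.erase 0, ε' * K * T ≤ ∑ i ∈ range K', Gh k i := by
    by_contra hcon
    push Not at hcon
    have h1 : ∑ k ∈ Ks.erase 0, ∑ i ∈ range K', Gh k i ≤ #(Ks.erase 0) * (ε' * K * T) := by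
      rw [← nsmul_eq_mul, ← Finset.sum_const]
      exact Finset.sum_le_sum fun k hk => (hcon k hk).le
    have h2 : M * ∑ k ∈ Ks.erase 0, ∑ i ∈ range K', Gh k i ≤ M * (NK * (ε' * K * T)) := by
      refine mul_le_mul_of_nonneg_left (h1.trans ?_) (by positivity)
      exact mul_le_mul_of_nonneg_right hcard1 (by positivity)
    have h3 : M * (NK * (ε' * K * T)) = ε / 8 * K * T := by
      rw [← hε'1]
      ring
    rw [h3] at h2
    have h4 : 0 < ε / 8 * K * T := by positivity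
    have h5 : ε / 4 * K * T = ε / 8 * K * T + ε / 8 * K * T := by ring
    rw [h5] at hsum2
    linarith
  obtain ⟨k, hk, hk2⟩ := hpig
  have hkKs := Finset.mem_of_mem_erase hk
  have hk0 : k ≠ 0 := (Finset.mem_erase.1 hk).1
  have hkH : |k| ≤ H := by
    have := Finset.mem_Icc.1 (Finset.mem_of_mem_erase hk)
    exact abs_le.2 this
  obtain ⟨s, hs, ψ, hψ1, hψ2⟩ := level_freq b hb H k hk0 hkH
  -- shift of the levels
  set N : ℕ := K' - s with hN
  have hNK' : s + N = K' := by omega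
  have hshift : ε' / 2 * K * T ≤ ∑ i ∈ range N, Gh k (s + i) := by
    have h1 : ∑ i ∈ range K', Gh k i = ∑ i ∈ range s, Gh k i + ∑ i ∈ range N, Gh k (s + i) := by
      rw [← Finset.sum_range_add, hNK']
    have h2 : ∑ i ∈ range s, Gh k i ≤ H * T := by
      have h3 : ∑ i ∈ range s, Gh k i ≤ ∑ _i ∈ range s, T := Finset.sum_le_sum fun i _ => hGT k i
      rw [Finset.sum_const, card_range, nsmul_eq_mul] at h3
      refine h3.trans (mul_le_mul_of_nonneg_right ?_ hT0.le)
      exact_mod_cast hs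
    rw [h1] at hk2
    have h4 : H * T ≤ ε' / 2 * K * T := mul_le_mul_of_nonneg_right (by linarith) hT0.le
    linarith
  -- the kernel
  obtain ⟨ω, hω1, hω2⟩ := kernel_choice S D f hf N ψ
    (fun i n => (starRingEnd ℂ) (u (s + i) k n))
  obtain ⟨Y, hY0, hY4, hY⟩ := kernel_le (b := b) (K := K) (by omega) S (N := N) (h := h + 1 + s)
    (by omega) (by omega) ψ hψ1 (Λ := Λ) (fun i n => (starRingEnd ℂ) (u (s + i) k n))
    (fun i hi => by
      have h1 := (hu (s + i) k (by omega) hkKs).1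
      have h2 := h1.conj
      rw [show i + (h + 1 + s) = s + i + h + 1 by ring]
      exact h2) (fun i n => by rw [RCLike.norm_conj]; exact hu1 _ _ _) ω hω1
  have hGe : ∀ i ∈ range N, ‖∑ n ∈ D, ch (f n) (ψ i) *
      (starRingEnd ℂ) ((starRingEnd ℂ) (u (s + i) k n))‖ = Gh k (s + i) := by
    intro i _
    simp only [hGh]
    congr 1
    refine Finset.sum_congr rfl fun n _ => ?_
    rw [Complex.conj_conj, hψ2, mul_comm]
    simp only [hz]
    rw [show i + s + 1 = s + i + 1 by ring]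
  rw [Finset.sum_congr rfl hGe] at hω2
  set x : ℝ := (b : ℝ) ^ K with hx
  have hx0 : 0 < x := by positivity
  set E : ℝ := En S (b ^ K) with hE
  have hEpos : 0 < E := by
    have hne : D.Nonempty := by
      rw [← Finset.card_pos]
      have : (0 : ℝ) < #D := hT0
      exact_mod_cast this
    obtain ⟨n, hn⟩ := hne
    have hn1 : n ∈ range (2 * b ^ K) := by
      have := mem_range.1 (hD hn)
      rw [mem_range]
      omega
    have h1 : (1 : ℝ) ≤ ((repF S n : ℕ) : ℝ) ^ 2 := by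
      have h2 : 0 < repF S n := by
        refine Finset.card_pos.2 ⟨(f n, n - f n), ?_⟩
        refine mem_filter.2 ⟨mem_product.2 ⟨(hf n hn).2.1, (hf n hn).2.2⟩, ?_⟩
        exact Nat.add_sub_cancel' (hf n hn).1
      have h3 : (1 : ℝ) ≤ ((repF S n : ℕ) : ℝ) := by exact_mod_cast h2
      nlinarith
    have h2 := Finset.single_le_sum (f := fun n => ((repF S n : ℕ) : ℝ) ^ 2)
      (fun _ _ => sq_nonneg _) hn1
    have h3 : ((repF S n : ℕ) : ℝ) ^ 2 ≤ E := h2
    linarith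
  have hκ : 0 < E / x := by positivity
  have hκx : E = E / x * x := by field_simp
  have hcard : (#S : ℝ) ^ 2 ≤ √(2 * (E / x)) * x := by
    have h1 := card_sq_le' S hS hκ (by
      push_cast
      rw [← hx]
      exact hκx.le)
    push_cast at h1
    exact h1
  have hPh : Ph b K S K ≤ (53 * (E / x) * x ^ 2) ^ 2 := by
    have h1 := sum_fourth b K hb S hS
    have h2 : Ph b K S K = (∑ t ∈ range (b ^ K), ‖hat S (fr b K t)‖ ^ 4) ^ 2 := by
      unfold Ph
      rw [Phi_top]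
      congr 1
      refine Finset.sum_congr rfl fun t _ => ?_
      rw [← pow_mul]
    rw [h2]
    refine pow_le_pow_left₀ (Finset.sum_nonneg fun _ _ => by positivity) ?_ 2
    refine h1.trans (le_of_eq ?_)
    have h3 : 53 * (E / x) * x ^ 2 = 53 * x * (E / x * x) := by ring
    rw [h3, ← hκx]
  have hB : (b : ℝ) ^ (h + 1 + s) * ((h + 1 + s : ℕ) : ℝ) ≤
      (b : ℝ) ^ (h + 1 + H) * (h + 1 + H) := by
    have hb1 : (1 : ℝ) ≤ b := by
      have : 1 ≤ b := by omega
      exact_mod_cast this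
    refine mul_le_mul (pow_le_pow_right₀ hb1 (by omega)) ?_ (Nat.cast_nonneg _) (by positivity)
    push_cast
    have : (s : ℝ) ≤ H := by exact_mod_cast hs
    linarith
  have hPh0 : 0 ≤ Ph b K S K := by
    unfold Ph Phi
    exact Finset.sum_nonneg fun _ _ => sq_nonneg _
  have hfin1 := hfin N x (E / x) Y ((#S : ℝ) ^ 2) (by omega) hx0 hκ hY0 hcard (by
    refine hY4.trans (mul_le_mul_of_nonneg_left ?_ (by positivity))
    calc (b : ℝ) ^ (h + 1 + s) * (((h + 1 + s : ℕ) : ℝ) * Ph b K S K) =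
          ((b : ℝ) ^ (h + 1 + s) * ((h + 1 + s : ℕ) : ℝ)) * Ph b K S K := by ring
      _ ≤ _ := mul_le_mul hB hPh hPh0 (by positivity)) (by
    have h1 : (ε' / 2 * K * T) ^ 2 ≤ T * (N * (#S : ℝ) ^ 2 + 2 * (N * (Λ ^ 2 * Y))) := by
      have h0 : 0 ≤ ε' / 2 * K * T :=
        mul_nonneg (mul_nonneg (by linarith) hK0'.le) hT0.le
      refine (pow_le_pow_left₀ h0 hshift 2).trans (hω2.trans ?_)
      exact mul_le_mul_of_nonneg_left hY hT0.le
    have h2 : (ε' / 2) ^ 2 * K ^ 2 * T ≤ N * (#S : ℝ) ^ 2 + 2 * (N * (Λ ^ 2 * Y)) := by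
      refine le_of_mul_le_mul_left ?_ hT0
      refine le_trans (le_of_eq ?_) h1
      ring
    refine le_trans ?_ h2
    have hNK2 : (N : ℝ) ≤ K := by
      have : N ≤ K := by omega
      exact_mod_cast this
    calc (ε' / 2) ^ 2 * δ * N ^ 2 * x = (ε' / 2) ^ 2 * N ^ 2 * (δ * x) := by ring
      _ ≤ (ε' / 2) ^ 2 * K ^ 2 * T := by
        refine mul_le_mul ?_ hDc (by positivity) (by positivity)
        refine mul_le_mul_of_nonneg_left ?_ (by positivity)
        exact pow_le_pow_left₀ (Nat.cast_nonneg _) hNK2 2)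
  have hsq : √(K : ℝ) ≤ 2 * √(N : ℝ) := by
    rw [Real.sqrt_le_left (by positivity), mul_pow, Real.sq_sqrt (Nat.cast_nonneg _)]
    have : K ≤ 4 * N := by omega
    have : (K : ℝ) ≤ 4 * N := by exact_mod_cast this
    linarith
  have hgoal : c' / 2 * √K * x ≤ E := by
    rw [hκx]
    refine mul_le_mul_of_nonneg_right ?_ hx0.le
    refine le_trans ?_ hfin1
    nlinarith
  exact hgoal

end Pool.Agent.Helper57.ON
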