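import Pool.Agent.Helper78.LJ.WnDigit
import Pool.Agent.Helper57.LJ.Junta

/-! The frequencies of the averaged digit indicators. -/

namespace Pool.Agent.Helper57.ON

open Finset
open Pool.Agent.Helper57.PC (Fr ch Wn e)
open Pool.Agent.Helper57.LJ (dig U)
open Pool.Agent.Helper78.LJ (orth count_eq parseval coef_le card_digit_le dig_mod)

theorem digit_freq (b : ℕ) (hb : 2 ≤ b) (q d : ℕ) (ρ : ℝ) (hρ : 0 < ρ) (hρ1 : ρ ≤ 1) :
    ∃ (ι : Type) (_ : Fintype ι) (c : ι → ℂ) (θ : ι → Fr), ∑ i, ‖c i‖ ≤ 1 / √ρ ∧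
      (∀ i, b ^ (q + 1) • θ i = 0) ∧ ∀ n, U b ρ q d n = ∑ i, c i * ch n (θ i) := by
  unfold U
  have hbq : 0 < b ^ q := Nat.pow_pos (by omega)
  have hm : 0 < b ^ (q + 1) := Nat.pow_pos (by omega)
  have hbqR : (0 : ℝ) < (b : ℝ) ^ q := by exact_mod_cast hbq
  obtain ⟨J, hJ⟩ : ∃ J : ℕ, J = Nat.floor (ρ * (b:ℝ)^q) + 1 := ⟨_, rfl⟩
  have hJ1 : ρ * (b : ℝ) ^ q < J := by
    rw [hJ]; push_cast; exact Nat.lt_floor_add_one _
  have hJ0 : (0 : ℝ) < J := lt_trans (mul_pos hρ hbqR) hJ1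
  have hJm : J ≤ b ^ (q + 1) := by
    have h1 : Nat.floor (ρ * (b:ℝ)^q) ≤ b ^ q := by
      apply Nat.floor_le_of_le
      push_cast
      nlinarith
    rw [hJ, pow_succ]
    nlinarith
  rw [← hJ]
  obtain ⟨m, hmm⟩ : ∃ m : ℕ, m = b ^ (q + 1) := ⟨_, rfl⟩
  rw [← hmm] at hm hJm
  obtain ⟨I, hI⟩ : ∃ I : Finset ℕ, I = {r ∈ range m | dig b q r = d} := ⟨_, rfl⟩
  have hIm : I ⊆ range m := by rw [hI]; exact Finset.filter_subset _ _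
  have hIc : #I ≤ b ^ q := by rw [hI, hmm]; exact card_digit_le b q d
  have hζ : IsPrimitiveRoot (Complex.exp (2 * Real.pi * Complex.I / m)) m :=
    Complex.isPrimitiveRoot_exp m hm.ne'
  have hn : ‖Complex.exp (2 * Real.pi * Complex.I / m)‖ = 1 := hζ.norm'_eq_one hm.ne'
  obtain ⟨ζ, hζe⟩ : ∃ ζ : ℂ, ζ = Complex.exp (2 * Real.pi * Complex.I / m) := ⟨_, rfl⟩
  rw [← hζe] at hζ hn
  have hmem : ∀ n j : ℕ, dig b q (n + j) = d ↔ (n + j) % m ∈ I := by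
    intro n j
    rw [hI, Finset.mem_filter, hmm, dig_mod]
    exact ⟨fun h => ⟨Finset.mem_range.2 (Nat.mod_lt _ (hmm ▸ hm)), h⟩, fun h => h.2⟩
  refine ⟨Fin m, inferInstance, fun k => ((1 / (m : ℂ)) *
      (∑ r ∈ I, (starRingEnd ℂ) (ζ ^ ((k : ℕ) * r))) * (∑ j ∈ range J, ζ ^ ((k : ℕ) * j))) / (J : ℂ),
    fun k => (((k : ℕ) / (m : ℝ) : ℝ) : Fr), ?_, fun k => ?_, ?_⟩
  · have e1 : ∀ k : Fin m, ‖((1 / (m : ℂ)) *
      (∑ r ∈ I, (starRingEnd ℂ) (ζ ^ ((k : ℕ) * r))) * (∑ j ∈ range J, ζ ^ ((k : ℕ) * j))) / (J : ℂ)‖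
        = ‖((1 / (m : ℂ)) *
      (∑ r ∈ I, (starRingEnd ℂ) (ζ ^ ((k : ℕ) * r))) * (∑ j ∈ range J, ζ ^ ((k : ℕ) * j)))‖ / J := by
      intro k
      rw [norm_div, Complex.norm_natCast]
    rw [Finset.sum_congr rfl fun k _ => e1 k, ← Finset.sum_div]
    rw [Fin.sum_univ_eq_sum_range (fun k => ‖((1 / (m : ℂ)) *
      (∑ r ∈ I, (starRingEnd ℂ) (ζ ^ (k * r))) * (∑ j ∈ range J, ζ ^ (k * j)))‖) m]
    have e2 := coef_le hm hζ hn I hIm J hJm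
    rw [div_le_iff₀ hJ0]
    refine e2.trans ?_
    have e3 : (1 / Real.sqrt ρ) * (J : ℝ) = Real.sqrt ((J : ℝ) ^ 2 / ρ) := by
      rw [Real.sqrt_div (by positivity), Real.sqrt_sq hJ0.le]
      ring
    rw [e3]
    apply Real.sqrt_le_sqrt
    rw [le_div_iff₀ hρ]
    have e4 : (#I : ℝ) ≤ (b : ℝ) ^ q := by exact_mod_cast hIc
    have e5 : (#I : ℝ) * ρ ≤ J := by
      calc (#I : ℝ) * ρ ≤ (b : ℝ) ^ q * ρ := mul_le_mul_of_nonneg_right e4 hρ.le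
        _ = ρ * (b : ℝ) ^ q := mul_comm _ _
        _ ≤ J := hJ1.le
    nlinarith
  · rw [← hmm, ← AddCircle.coe_nsmul, nsmul_eq_mul]
    have h0 : (m : ℝ) ≠ 0 := by exact_mod_cast hm.ne'
    rw [mul_div_cancel₀ _ h0]
    have h1 : ((((k : ℕ) : ℝ) : ℝ) : Fr) = (k : ℕ) • ((1 : ℝ) : Fr) := by
      rw [← AddCircle.coe_nsmul, nsmul_eq_mul, mul_one]
    rw [h1]
    have h2 : ((1 : ℝ) : Fr) = 0 := AddCircle.coe_period 1
    rw [h2, smul_zero]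
  · intro n
    have e1 : ∀ k : ℕ, ch n (((k / (m : ℝ) : ℝ)) : Fr) = ζ ^ (k * n) := by
      intro k
      rw [Pool.Agent.Helper57.PC.ch_eq_e, hζe]
      unfold e
      rw [← Complex.exp_nat_mul]
      congr 1
      push_cast
      ring
    have e2 : ∀ k : Fin m, ((1 / (m : ℂ)) *
        (∑ r ∈ I, (starRingEnd ℂ) (ζ ^ ((k : ℕ) * r))) * (∑ j ∈ range J, ζ ^ ((k : ℕ) * j))) / (J : ℂ)
          * ch n ((((k : ℕ) / (m : ℝ) : ℝ)) : Fr)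
        = (((1 / (m : ℂ)) *
        (∑ r ∈ I, (starRingEnd ℂ) (ζ ^ ((k : ℕ) * r))) * (∑ j ∈ range J, ζ ^ ((k : ℕ) * j)))
          * ζ ^ ((k : ℕ) * n)) / J := by
      intro k
      rw [e1]
      ring
    rw [Finset.sum_congr rfl fun k _ => e2 k, ← Finset.sum_div]
    rw [Fin.sum_univ_eq_sum_range (fun k => (((1 / (m : ℂ)) *
        (∑ r ∈ I, (starRingEnd ℂ) (ζ ^ (k * r))) * (∑ j ∈ range J, ζ ^ (k * j)))
          * ζ ^ (k * n))) m]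
    rw [← count_eq hm hζ hn I hIm J n]
    simp_rw [hmem]

end Pool.Agent.Helper57.ON
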