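import Pool.Agent.Helper57.ON.Pot
import Pool.Agent.Helper43.ON.Inner
import Pool.Agent.Helper57.LJ.Exp

/-! The kernel for functions of the sum which are combinations of characters with periodic
coefficients. -/

namespace Pool.Agent.Helper57.ON

open Finset
open Pool.Agent.Helper57.PC (Fr ch hat norm_ch ch_add ch_nat_add ch_sub ch_neg)
open Pool.Agent.Helper43.ON (inner_bound)

/-- combinations of characters of order dividing `b ^ K` with bounded `m`-periodic coefficients -/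
def WP (b K m : ℕ) (Λ : ℝ) (g : ℕ → ℂ) : Prop :=
  ∃ (ι : Type) (_ : Fintype ι) (c : ι → ℂ) (θ : ι → Fr) (P : ι → ℕ → ℂ), ∑ i, ‖c i‖ ≤ Λ ∧
    (∀ i, b ^ K • θ i = 0) ∧ (∀ i n, ‖P i n‖ ≤ 1 ∧ P i (n + m) = P i n) ∧
    ∀ n, g n = ∑ i, c i * (ch n (θ i) * P i n)

lemma WP.conj {b K m : ℕ} {Λ : ℝ} {g : ℕ → ℂ} (h : WP b K m Λ g) :
    WP b K m Λ (fun n => (starRingEnd ℂ) (g n)) := by
  obtain ⟨ι, hι, c, θ, P, h1, h2, h3, h4⟩ := h
  refine ⟨ι, hι, fun i => (starRingEnd ℂ) (c i), fun i => -θ i,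
    fun i n => (starRingEnd ℂ) (P i n), ?_, fun i => ?_, fun i n => ⟨?_, ?_⟩, fun n => ?_⟩
  · simp_rw [RCLike.norm_conj]
    exact h1
  · rw [smul_neg, h2, neg_zero]
  · rw [RCLike.norm_conj]
    exact (h3 i n).1
  · simp only
    rw [(h3 i n).2]
  · simp only
    rw [h4, map_sum]
    refine Finset.sum_congr rfl fun i _ => ?_
    rw [map_mul, map_mul, ch_neg]

lemma WP.mono_period {b K m m' : ℕ} {Λ : ℝ} {g : ℕ → ℂ} (h : WP b K m Λ g) (hm : m ∣ m') :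
    WP b K m' Λ g := by
  obtain ⟨ι, hι, c, θ, P, h1, h2, h3, h4⟩ := h
  refine ⟨ι, hι, c, θ, P, h1, h2, fun i n => ⟨(h3 i n).1, ?_⟩, h4⟩
  obtain ⟨k, rfl⟩ := hm
  induction k with
  | zero => simp
  | succ k ih => rw [mul_add, mul_one, ← add_assoc, (h3 i _).2, ih]

/-- the frequencies `j / b ^ K` -/
noncomputable def fr (b K j : ℕ) : Fr := j • (((1 : ℝ) / (b ^ K : ℕ) : ℝ) : Fr)

lemma fr_add (b K i j : ℕ) : fr b K (i + j) = fr b K i + fr b K j := by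
  unfold fr
  rw [add_smul]

lemma fr_period {b : ℕ} (hb : 0 < b) (K j : ℕ) : fr b K (j + b ^ K) = fr b K j := by
  rw [fr_add]
  have : fr b K (b ^ K) = 0 := by
    unfold fr
    rw [← AddCircle.coe_nsmul, nsmul_eq_mul]
    have h0 : ((b ^ K : ℕ) : ℝ) ≠ 0 := by positivity
    rw [mul_one_div_cancel h0]
    exact AddCircle.coe_period 1
  rw [this, add_zero]

/-- frequencies of a level -/
lemma fr_level {b : ℕ} (hb : 0 < b) {n K : ℕ} (hn : n ≤ K) (k : ℕ) :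
    k • (((1 : ℝ) / (b ^ n : ℕ) : ℝ) : Fr) = fr b K (k * b ^ (K - n)) := by
  unfold fr
  rw [mul_smul]
  congr 1
  rw [← AddCircle.coe_nsmul, nsmul_eq_mul]
  congr 1
  have h1 : ((b ^ K : ℕ) : ℝ) = ((b ^ n : ℕ) : ℝ) * ((b ^ (K - n) : ℕ) : ℝ) := by
    rw [← Nat.cast_mul, ← pow_add, Nat.add_sub_cancel' hn]
  have h2 : ((b ^ n : ℕ) : ℝ) ≠ 0 := by positivity
  have h3 : ((b ^ (K - n) : ℕ) : ℝ) ≠ 0 := by positivity
  rw [h1]
  field_simp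

/-- torsion frequencies -/
lemma exists_level {b : ℕ} (hb : 0 < b) {n : ℕ} {τ : Fr} (h : b ^ n • τ = 0) :
    ∃ k : ℕ, τ = k • (((1 : ℝ) / (b ^ n : ℕ) : ℝ) : Fr) := by
  have hpos : 0 < b ^ n := by positivity
  obtain ⟨m, _, hm⟩ := (AddCircle.nsmul_eq_zero_iff hpos).1 h
  refine ⟨m, ?_⟩
  rw [← hm, ← AddCircle.coe_nsmul, nsmul_eq_mul]
  congr 1
  rw [mul_one, mul_one_div]

lemma smul_level_zero {b : ℕ} (hb : 0 < b) {n : ℕ} (k : ℕ) :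
    b ^ n • (k • (((1 : ℝ) / (b ^ n : ℕ) : ℝ) : Fr)) = 0 := by
  rw [smul_comm]
  have : b ^ n • (((1 : ℝ) / (b ^ n : ℕ) : ℝ) : Fr) = 0 := by
    rw [← AddCircle.coe_nsmul, nsmul_eq_mul]
    have h0 : ((b ^ n : ℕ) : ℝ) ≠ 0 := by positivity
    rw [mul_one_div_cancel h0]
    exact AddCircle.coe_period 1
  rw [this, smul_zero]

/-- the inner sums -/
lemma inner_le {b K : ℕ} (hb : 0 < b) (S : Finset ℕ) {i h : ℕ} (hh : 1 ≤ h) (hih : i + h ≤ K)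
    (τ η : Fr) (hτ : b ^ K • τ = 0) (hη : b ^ (i + 1) • η = 0) (hη' : b ^ i • η ≠ 0)
    (P : ℕ → ℂ) (hP : ∀ n, P (n + b ^ (i + h)) = P n) (hP1 : ∀ n, ‖P n‖ ≤ 1) :
    ‖∑ p ∈ S ×ˢ S, ch p.1 η * (ch (p.1 + p.2) τ * P (p.1 + p.2))‖ ^ 4 ≤
      b ^ h * (Phi b K (fun j => ‖hat S (fr b K j)‖ ^ 2) (i + h) -
        Phi b K (fun j => ‖hat S (fr b K j)‖ ^ 2) i) := by
  obtain ⟨z, hz⟩ := exists_level hb hτ
  have hη2 : b ^ (i + h) • η = 0 := by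
    obtain ⟨d, hd⟩ := Nat.exists_eq_add_of_le hh
    rw [hd, show i + (1 + d) = d + (i + 1) by ring, pow_add, mul_smul, hη, smul_zero]
  obtain ⟨g, hg⟩ := exists_level hb hη2
  have hgd : ¬ b ^ h ∣ g := by
    rintro ⟨g', rfl⟩
    apply hη'
    rw [hg]
    have e : (b ^ h * g') • (((1 : ℝ) / (b ^ (i + h) : ℕ) : ℝ) : Fr) =
        g' • (b ^ h • (((1 : ℝ) / (b ^ (i + h) : ℕ) : ℝ) : Fr)) := by
      rw [mul_comm, mul_smul]
    have h0 := smul_level_zero hb (n := i + h) 1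
    rw [one_smul] at h0
    rw [e, smul_comm, ← mul_smul (b ^ i) (b ^ h), ← pow_add, h0, smul_zero]
  have h1 := inner_bound (b ^ (i + h)) (by positivity) S τ η P hP hP1
  have h2 := overlap_le (K := K) (v := fun j => ‖hat S (fr b K j)‖ ^ 2) hb
    (fun j => by simp only [fr_period hb]) hih z g hgd
  have h3 : ∀ t : ℕ, ‖hat S (t • (((1 : ℝ) / ((b ^ (i + h) : ℕ) : ℝ) : ℝ) : Fr) + τ + η)‖ ^ 2 *
        ‖hat S (t • (((1 : ℝ) / ((b ^ (i + h) : ℕ) : ℝ) : ℝ) : Fr) + τ)‖ ^ 2 =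
      ‖hat S (fr b K (z + t * b ^ (K - (i + h)) + g * b ^ (K - (i + h))))‖ ^ 2 *
        ‖hat S (fr b K (z + t * b ^ (K - (i + h))))‖ ^ 2 := by
    intro t
    have e1 : t • (((1 : ℝ) / ((b ^ (i + h) : ℕ) : ℝ) : ℝ) : Fr) + τ =
        fr b K (z + t * b ^ (K - (i + h))) := by
      rw [fr_add, ← fr_level hb hih, hz, add_comm]
      rfl
    have e2 : t • (((1 : ℝ) / ((b ^ (i + h) : ℕ) : ℝ) : ℝ) : Fr) + τ + η =
        fr b K (z + t * b ^ (K - (i + h)) + g * b ^ (K - (i + h))) := by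
      rw [fr_add, ← fr_level hb hih g, ← hg, e1]
    rw [e2, e1]
  rw [Finset.sum_congr rfl fun t _ => h3 t] at h1
  have h4 := pow_le_pow_left₀ (sq_nonneg _) h1 2
  rw [← pow_mul] at h4
  exact h4.trans h2

end Pool.Agent.Helper57.ON
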