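import Pool.Agent.Helper57.ON.Kern

/-! The kernel bound. -/

namespace Pool.Agent.Helper57.ON

open Finset
open Pool.Agent.Helper57.PC (Fr ch hat norm_ch ch_add ch_nat_add ch_sub ch_neg)

/-- abbreviation for the potential of the exponential sum of `S` -/
noncomputable def Ph (b K : ℕ) (S : Finset ℕ) (i : ℕ) : ℝ :=
  Phi b K (fun j => ‖hat S (fr b K j)‖ ^ 2) i

/-- one term of the kernel -/
lemma term_le {b K : ℕ} (hb : 0 < b) (S : Finset ℕ) {i l h : ℕ} (hh : 1 ≤ h) (hih : i + h ≤ K)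
    (hli : l < i) (ψ : ℕ → Fr) (hψ : ∀ i, b ^ (i + 1) • ψ i = 0 ∧ b ^ i • ψ i ≠ 0)
    {Λ : ℝ} (g : ℕ → ℕ → ℂ) (hgi : WP b K (b ^ (i + h)) Λ (g i))
    (hgl : WP b K (b ^ (l + h)) Λ (g l)) :
    ‖∑ p ∈ S ×ˢ S, ch p.1 (ψ i - ψ l) *
      ((starRingEnd ℂ) (g i (p.1 + p.2)) * g l (p.1 + p.2))‖ ≤
      Λ ^ 2 * √√(b ^ h * (Ph b K S (i + h) - Ph b K S i)) := by
  have hη : b ^ (i + 1) • (ψ i - ψ l) = 0 := by
    obtain ⟨d, hd⟩ := Nat.exists_eq_add_of_lt hli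
    have h1 : b ^ (i + 1) • ψ l = 0 := by
      rw [hd, show l + d + 1 + 1 = (d + 1) + (l + 1) by ring, pow_add, mul_smul, (hψ l).1,
        smul_zero]
    rw [smul_sub, (hψ i).1, h1, sub_zero]
  have hη' : b ^ i • (ψ i - ψ l) ≠ 0 := by
    obtain ⟨d, hd⟩ := Nat.exists_eq_add_of_lt hli
    have h1 : b ^ i • ψ l = 0 := by
      rw [hd, show l + d + 1 = d + (l + 1) by ring, pow_add, mul_smul, (hψ l).1, smul_zero]
    rw [smul_sub, h1, sub_zero]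
    exact (hψ i).2
  have hgl' := WP.mono_period hgl (pow_dvd_pow b (show l + h ≤ i + h by omega))
  obtain ⟨ι, hι, c, θ, P, h1, h2, h3, h40⟩ := hgi.conj
  have h4 : ∀ n, (starRingEnd ℂ) (g i n) = ∑ i, c i * (ch n (θ i) * P i n) := h40
  obtain ⟨ι', hι', c', θ', P', h1', h2', h3', h4'⟩ := hgl'
  set β : ℝ := √√(b ^ h * (Ph b K S (i + h) - Ph b K S i)) with hβ
  have hB : ∀ j j', ‖∑ p ∈ S ×ˢ S, ch p.1 (ψ i - ψ l) * (ch (p.1 + p.2) (θ j + θ' j') *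
      (P j (p.1 + p.2) * P' j' (p.1 + p.2)))‖ ≤ β := by
    intro j j'
    have h5 := inner_le hb S hh hih (θ j + θ' j') (ψ i - ψ l)
      (by rw [smul_add, h2, h2', add_zero]) hη hη' (fun n => P j n * P' j' n)
      (fun n => by simp only [(h3 j n).2, (h3' j' n).2]) (fun n => by
        rw [norm_mul]
        exact mul_le_one₀ (h3 j n).1 (norm_nonneg _) (h3' j' n).1)
    rw [hβ]
    refine Real.le_sqrt_of_sq_le (Real.le_sqrt_of_sq_le ?_)
    rw [← pow_mul]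
    exact h5
  have hβ0 : 0 ≤ β := Real.sqrt_nonneg _
  have e : ∑ p ∈ S ×ˢ S, ch p.1 (ψ i - ψ l) *
      ((starRingEnd ℂ) (g i (p.1 + p.2)) * g l (p.1 + p.2)) =
      ∑ j, ∑ j', (c j * c' j') * ∑ p ∈ S ×ˢ S, ch p.1 (ψ i - ψ l) *
        (ch (p.1 + p.2) (θ j + θ' j') * (P j (p.1 + p.2) * P' j' (p.1 + p.2))) := by
    have e1 : ∀ p ∈ S ×ˢ S, ch p.1 (ψ i - ψ l) *
        ((starRingEnd ℂ) (g i (p.1 + p.2)) * g l (p.1 + p.2)) =
        ∑ j, ∑ j', (c j * c' j') * (ch p.1 (ψ i - ψ l) *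
          (ch (p.1 + p.2) (θ j + θ' j') * (P j (p.1 + p.2) * P' j' (p.1 + p.2)))) := by
      intro p _
      rw [h4, h4', Finset.sum_mul_sum, Finset.mul_sum]
      refine Finset.sum_congr rfl fun j _ => ?_
      rw [Finset.mul_sum]
      refine Finset.sum_congr rfl fun j' _ => ?_
      rw [ch_add]
      ring
    rw [Finset.sum_congr rfl e1, Finset.sum_comm]
    refine Finset.sum_congr rfl fun j _ => ?_
    rw [Finset.sum_comm]
    refine Finset.sum_congr rfl fun j' _ => ?_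
    rw [Finset.mul_sum]
  rw [e]
  have h6 : ‖∑ j, ∑ j', (c j * c' j') * ∑ p ∈ S ×ˢ S, ch p.1 (ψ i - ψ l) *
        (ch (p.1 + p.2) (θ j + θ' j') * (P j (p.1 + p.2) * P' j' (p.1 + p.2)))‖ ≤
      ∑ j, ∑ j', (‖c j‖ * ‖c' j'‖) * β := by
    refine (norm_sum_le _ _).trans (Finset.sum_le_sum fun j _ => (norm_sum_le _ _).trans
      (Finset.sum_le_sum fun j' _ => ?_))
    rw [norm_mul, norm_mul]
    exact mul_le_mul_of_nonneg_left (hB j j') (by positivity)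
  refine h6.trans ?_
  have h7 : ∑ j, ∑ j', (‖c j‖ * ‖c' j'‖) * β = (∑ j, ‖c j‖) * (∑ j', ‖c' j'‖) * β := by
    rw [Finset.sum_mul_sum, Finset.sum_mul]
    refine Finset.sum_congr rfl fun j _ => ?_
    rw [Finset.sum_mul]
  rw [h7]
  refine mul_le_mul_of_nonneg_right ?_ hβ0
  rw [sq]
  exact mul_le_mul h1 h1' (Finset.sum_nonneg fun _ _ => norm_nonneg _)
    (le_trans (Finset.sum_nonneg fun _ _ => norm_nonneg _) h1)

/-- the kernel bound -/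
theorem kernel_le {b K : ℕ} (hb : 0 < b) (S : Finset ℕ) {N h : ℕ} (hh : 1 ≤ h) (hNh : N + h ≤ K)
    (ψ : ℕ → Fr) (hψ : ∀ i, b ^ (i + 1) • ψ i = 0 ∧ b ^ i • ψ i ≠ 0) {Λ : ℝ}
    (g : ℕ → ℕ → ℂ) (hg : ∀ i < N, WP b K (b ^ (i + h)) Λ (g i)) (hg1 : ∀ i n, ‖g i n‖ ≤ 1)
    (ω : ℕ → ℂ) (hω : ∀ i, ‖ω i‖ ≤ 1) :
    ∃ Y : ℝ, 0 ≤ Y ∧ Y ^ 4 ≤ N ^ 3 * (b ^ h * (h * Ph b K S K)) ∧
    ∑ p ∈ S ×ˢ S, ‖∑ i ∈ range N, ω i * (ch p.1 (ψ i) * (starRingEnd ℂ) (g i (p.1 + p.2)))‖ ^ 2 ≤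
      N * (#S : ℝ) ^ 2 + 2 * (N * (Λ ^ 2 * Y)) := by
  set A : ℕ → ℕ → ℂ := fun i l => ∑ p ∈ S ×ˢ S, ch p.1 (ψ i - ψ l) *
      ((starRingEnd ℂ) (g i (p.1 + p.2)) * g l (p.1 + p.2)) with hA
  set β : ℕ → ℝ := fun i => √√(b ^ h * (Ph b K S (i + h) - Ph b K S i)) with hβ
  have hβ0 : ∀ i, 0 ≤ β i := fun i => Real.sqrt_nonneg _
  set Y : ℝ := ∑ i ∈ range N, β i with hY
  have hY0 : 0 ≤ Y := Finset.sum_nonneg fun i _ => hβ0 i
  have hβ4 : ∀ i ∈ range N, β i ^ 4 = b ^ h * (Ph b K S (i + h) - Ph b K S i) := by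
    intro i hi
    rw [mem_range] at hi
    have h0 : 0 ≤ (b : ℝ) ^ h * (Ph b K S (i + h) - Ph b K S i) := by
      refine mul_nonneg (by positivity) (sub_nonneg.2 ?_)
      exact Phi_mono hb (by omega)
    simp only [hβ]
    rw [show (4 : ℕ) = 2 * 2 by norm_num, pow_mul, Real.sq_sqrt (Real.sqrt_nonneg _),
      Real.sq_sqrt h0]
  have hY4 : Y ^ 4 ≤ N ^ 3 * (b ^ h * (h * Ph b K S K)) := by
    have h1 : Y ^ 4 ≤ (N : ℝ) ^ 3 * ∑ i ∈ range N, β i ^ 4 := by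
      rcases Nat.eq_zero_or_pos N with h0 | h0
      · subst h0
        simp [hY]
      · have h2 := pow_sum_div_card_le_sum_pow (s := range N) (f := β) (fun i _ => hβ0 i) 3
        have hc : (0 : ℝ) < N := by exact_mod_cast h0
        rw [card_range, div_le_iff₀ (by positivity)] at h2
        refine h2.trans (le_of_eq ?_)
        rw [mul_comm]
    refine h1.trans (mul_le_mul_of_nonneg_left ?_ (by positivity))
    rw [Finset.sum_congr rfl hβ4, ← Finset.mul_sum]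
    exact mul_le_mul_of_nonneg_left (sum_Phi_le hb h hNh) (by positivity)
  refine ⟨Y, hY0, hY4, ?_⟩
  -- expansion
  have hG : ((∑ p ∈ S ×ˢ S, ‖∑ i ∈ range N, ω i * (ch p.1 (ψ i) *
      (starRingEnd ℂ) (g i (p.1 + p.2)))‖ ^ 2 : ℝ) : ℂ) =
      ∑ i ∈ range N, ∑ l ∈ range N, (ω i * (starRingEnd ℂ) (ω l)) * A i l := by
    push_cast
    have e1 : ∀ p ∈ S ×ˢ S, ((‖∑ i ∈ range N, ω i * (ch p.1 (ψ i) *
        (starRingEnd ℂ) (g i (p.1 + p.2)))‖ : ℂ)) ^ 2 =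
        ∑ i ∈ range N, ∑ l ∈ range N, (ω i * (starRingEnd ℂ) (ω l)) *
          (ch p.1 (ψ i - ψ l) * ((starRingEnd ℂ) (g i (p.1 + p.2)) * g l (p.1 + p.2))) := by
      intro p _
      rw [← Complex.mul_conj', map_sum, Finset.sum_mul_sum]
      refine Finset.sum_congr rfl fun i _ => Finset.sum_congr rfl fun l _ => ?_
      rw [ch_sub, map_mul, map_mul, Complex.conj_conj]
      ring
    rw [Finset.sum_congr rfl e1, Finset.sum_comm]
    refine Finset.sum_congr rfl fun i _ => ?_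
    rw [Finset.sum_comm]
    refine Finset.sum_congr rfl fun l _ => ?_
    rw [hA, Finset.mul_sum]
  have hsym : ∀ i l, ‖A i l‖ = ‖A l i‖ := by
    intro i l
    have : A i l = (starRingEnd ℂ) (A l i) := by
      simp only [hA]
      rw [map_sum]
      refine Finset.sum_congr rfl fun p _ => ?_
      rw [map_mul, map_mul, Complex.conj_conj, ← ch_neg, neg_sub]
      ring
    rw [this, RCLike.norm_conj]
  have hdiag : ∀ i, ‖A i i‖ ≤ (#S : ℝ) ^ 2 := by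
    intro i
    simp only [hA]
    refine (norm_sum_le _ _).trans ?_
    have h1 : ∀ p ∈ S ×ˢ S, ‖ch p.1 (ψ i - ψ i) *
        ((starRingEnd ℂ) (g i (p.1 + p.2)) * g i (p.1 + p.2))‖ ≤ 1 := by
      intro p _
      rw [norm_mul, norm_ch, one_mul, norm_mul, RCLike.norm_conj]
      exact mul_le_one₀ (hg1 _ _) (norm_nonneg _) (hg1 _ _)
    refine (Finset.sum_le_sum h1).trans (le_of_eq ?_)
    rw [Finset.sum_const, Finset.card_product, nsmul_eq_mul, mul_one]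
    push_cast
    ring
  have hoff : ∀ i ∈ range N, ∀ l ∈ range N, ‖A i l‖ ≤
      (if l = i then (#S : ℝ) ^ 2 else 0) + Λ ^ 2 * β i + Λ ^ 2 * β l := by
    intro i hi l hl
    rw [mem_range] at hi hl
    have h1 : 0 ≤ Λ ^ 2 * β i := mul_nonneg (sq_nonneg _) (hβ0 _)
    have h2 : 0 ≤ Λ ^ 2 * β l := mul_nonneg (sq_nonneg _) (hβ0 _)
    rcases lt_trichotomy l i with hlt | hlt | hlt
    · rw [if_neg hlt.ne]
      have := term_le hb S hh (show i + h ≤ K by omega) hlt ψ hψ g (hg i hi) (hg l hl)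
      have h3 : ‖A i l‖ ≤ Λ ^ 2 * β i := this
      linarith
    · rw [if_pos hlt, hlt]
      have := hdiag i
      linarith
    · rw [if_neg hlt.ne', hsym]
      have := term_le hb S hh (show l + h ≤ K by omega) hlt ψ hψ g (hg l hl) (hg i hi)
      have h3 : ‖A l i‖ ≤ Λ ^ 2 * β l := this
      linarith
  set G : ℝ := ∑ p ∈ S ×ˢ S, ‖∑ i ∈ range N, ω i * (ch p.1 (ψ i) *
      (starRingEnd ℂ) (g i (p.1 + p.2)))‖ ^ 2 with hGdef
  have h8 : G ≤ ‖(G : ℂ)‖ := by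
    rw [Complex.norm_real]
    exact le_abs_self _
  rw [hG] at h8
  have h9 : ‖∑ i ∈ range N, ∑ l ∈ range N, (ω i * (starRingEnd ℂ) (ω l)) * A i l‖ ≤
      ∑ i ∈ range N, ∑ l ∈ range N, ((if l = i then (#S : ℝ) ^ 2 else 0) +
        Λ ^ 2 * β i + Λ ^ 2 * β l) := by
    refine (norm_sum_le _ _).trans (Finset.sum_le_sum fun i hi => (norm_sum_le _ _).trans
      (Finset.sum_le_sum fun l hl => ?_))
    rw [norm_mul, norm_mul, RCLike.norm_conj]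
    have h12 : ‖ω i‖ * ‖ω l‖ ≤ 1 := mul_le_one₀ (hω i) (norm_nonneg _) (hω l)
    exact (mul_le_of_le_one_left (norm_nonneg _) h12).trans (hoff i hi l hl)
  refine h8.trans (h9.trans (le_of_eq ?_))
  simp_rw [Finset.sum_add_distrib]
  have e2 : ∑ i ∈ range N, ∑ l ∈ range N, (if l = i then (#S : ℝ) ^ 2 else 0) =
      N * (#S : ℝ) ^ 2 := by
    have : ∀ i ∈ range N, ∑ l ∈ range N, (if l = i then (#S : ℝ) ^ 2 else 0) = (#S : ℝ) ^ 2 := by
      intro i hi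
      rw [Finset.sum_ite_eq', if_pos hi]
    rw [Finset.sum_congr rfl this, Finset.sum_const, card_range, nsmul_eq_mul]
  have e3 : ∑ i ∈ range N, ∑ _l ∈ range N, Λ ^ 2 * β i = N * (Λ ^ 2 * Y) := by
    simp_rw [Finset.sum_const, card_range, nsmul_eq_mul, ← Finset.mul_sum]
    rfl
  have e4 : ∑ _i ∈ range N, ∑ l ∈ range N, Λ ^ 2 * β l = N * (Λ ^ 2 * Y) := by
    simp_rw [Finset.sum_const, card_range, nsmul_eq_mul, ← Finset.mul_sum]
    rfl
  rw [e2, e3, e4]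
  ring

end Pool.Agent.Helper57.ON
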