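import Pool.Agent.Helper57.ON.Kern2
import Pool.Agent.Helper57.ON.Freq

/-! Functions of a residue and of few digits. -/

namespace Pool.Agent.Helper57.ON

open Finset
open Pool.Agent.Helper57.PC (Fr ch hat norm_ch ch_add ch_nat_add ch_sub ch_neg ch_zero)
open Pool.Agent.Helper57.LJ

lemma WP.mono {b K m : ℕ} {Λ Λ' : ℝ} {g : ℕ → ℂ} (h : WP b K m Λ g) (hΛ : Λ ≤ Λ') :
    WP b K m Λ' g := by
  obtain ⟨ι, hι, c, θ, P, h1, h2, h3, h4⟩ := h
  exact ⟨ι, hι, c, θ, P, h1.trans hΛ, h2, h3, h4⟩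

lemma WP.zero {b K m : ℕ} : WP b K m 0 (fun _ => 0) :=
  ⟨Empty, inferInstance, fun _ => 0, fun _ => 0, fun _ _ => 0, by simp, fun i => i.elim,
    fun i => i.elim, fun n => by simp⟩

lemma WP.add {b K m : ℕ} {Λ Λ' : ℝ} {g g' : ℕ → ℂ} (h : WP b K m Λ g) (h' : WP b K m Λ' g') :
    WP b K m (Λ + Λ') (fun n => g n + g' n) := by
  obtain ⟨ι, hι, c, θ, P, h1, h2, h3, h4⟩ := h
  obtain ⟨ι', hι', c', θ', P', h1', h2', h3', h4'⟩ := h'
  refine ⟨ι ⊕ ι', inferInstance, Sum.elim c c', Sum.elim θ θ', Sum.elim P P', ?_, ?_, ?_,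
    fun n => ?_⟩
  · rw [Fintype.sum_sum_type]
    exact add_le_add h1 h1'
  · rintro (i | i)
    · exact h2 i
    · exact h2' i
  · rintro (i | i) n
    · exact h3 i n
    · exact h3' i n
  · show g n + g' n = _
    rw [h4, h4', Fintype.sum_sum_type]
    rfl

lemma WP.sum {b K m : ℕ} {s : Finset ℕ} {Λ : ℝ} {g : ℕ → ℕ → ℂ}
    (h : ∀ d ∈ s, WP b K m Λ (g d)) : WP b K m (#s * Λ) (fun n => ∑ d ∈ s, g d n) := by
  classical
  induction s using Finset.induction_on with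
  | empty => simpa using WP.zero
  | insert d s hd ih =>
    have h1 := WP.add (h d (Finset.mem_insert_self _ _))
      (ih fun d' hd' => h d' (Finset.mem_insert_of_mem hd'))
    rw [Finset.card_insert_of_notMem hd]
    push_cast
    have e : ((#s : ℝ) + 1) * Λ = Λ + #s * Λ := by ring
    rw [e]
    simp_rw [Finset.sum_insert hd]
    exact h1

lemma WP.char_mul {b K m : ℕ} {Λ Λ' : ℝ} {u g : ℕ → ℂ}
    (hu : ∃ (ι : Type) (_ : Fintype ι) (c : ι → ℂ) (θ : ι → Fr), ∑ i, ‖c i‖ ≤ Λ' ∧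
      (∀ i, b ^ K • θ i = 0) ∧ ∀ n, u n = ∑ i, c i * ch n (θ i)) (h : WP b K m Λ g) :
    WP b K m (Λ' * Λ) (fun n => u n * g n) := by
  obtain ⟨ι, hι, c, θ, h1, h2, h3⟩ := hu
  obtain ⟨ι', hι', c', θ', P', h1', h2', h3', h4'⟩ := h
  refine ⟨ι × ι', inferInstance, fun p => c p.1 * c' p.2, fun p => θ p.1 + θ' p.2,
    fun p => P' p.2, ?_, fun p => ?_, fun p n => h3' p.2 n, fun n => ?_⟩
  · rw [Fintype.sum_prod_type]
    simp_rw [norm_mul]
    rw [← Finset.sum_mul_sum]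
    exact mul_le_mul h1 h1' (Finset.sum_nonneg fun _ _ => norm_nonneg _)
      (le_trans (Finset.sum_nonneg fun _ _ => norm_nonneg _) h1)
  · rw [smul_add, h2, h2', add_zero]
  · show u n * g n = _
    rw [h3, h4', Finset.sum_mul_sum, Fintype.sum_prod_type]
    refine Finset.sum_congr rfl fun i _ => Finset.sum_congr rfl fun j _ => ?_
    rw [ch_add]
    ring

/-- `g n` is determined by `n` modulo `m` and the digits of `n` at the positions in `Q` -/
def DependsMem {α : Type*} (b m : ℕ) (Q : Finset ℕ) (g : ℕ → α) : Prop :=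
  ∀ a n, a % m = n % m → (∀ q ∈ Q, dig b q a = dig b q n) → g a = g n

/-- approximation -/
theorem mem_approx {b : ℕ} (hb : 2 ≤ b) {ρ : ℝ} (hρ : 0 < ρ) (hρ1 : ρ ≤ 1) {K m : ℕ}
    (Q : Finset ℕ) : (∀ q ∈ Q, m ∣ b ^ q ∧ q < K) →
    ∀ g : ℕ → ℂ, DependsMem b m Q g → (∀ n, ‖g n‖ ≤ 1) →
      ∃ u : ℕ → ℂ, WP b K m ((b / √ρ) ^ #Q) u ∧ ∀ n, ‖u n‖ ≤ 1 ∧
        ((∀ q ∈ Q, n % b ^ q + ⌊ρ * (b : ℝ) ^ q⌋₊ < b ^ q) → u n = g n) := by
  classical
  induction Q using Finset.induction_on with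
  | empty =>
    intro _ g hg hg1
    refine ⟨g, ?_, fun n => ⟨hg1 n, fun _ => rfl⟩⟩
    rw [card_empty, pow_zero]
    refine ⟨Unit, inferInstance, fun _ => 1, fun _ => 0, fun _ => g, by simp, fun _ => by simp,
      fun _ n => ⟨hg1 n, hg _ _ (Nat.add_mod_right n m) (by simp)⟩, fun n => ?_⟩
    simp [ch_zero]
  | insert q Q hq ih =>
    intro hQ g hg hg1
    have hmq := (hQ q (Finset.mem_insert_self _ _)).1
    have hqK := (hQ q (Finset.mem_insert_self _ _)).2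
    have hQ' : ∀ q ∈ Q, m ∣ b ^ q ∧ q < K := fun q' hq' => hQ q' (Finset.mem_insert_of_mem hq')
    have h1 : ∀ d, ∃ u : ℕ → ℂ, d < b → WP b K m ((b / √ρ) ^ #Q) u ∧ ∀ n, ‖u n‖ ≤ 1 ∧
        ((∀ q ∈ Q, n % b ^ q + ⌊ρ * (b : ℝ) ^ q⌋₊ < b ^ q) → u n = g (setdig b q d n)) := by
      intro d
      by_cases hd : d < b
      · obtain ⟨u, hu⟩ := ih hQ' (fun n => g (setdig b q d n)) (by
          intro a n hmod hmn
          refine hg _ _ ?_ fun q' hq' => ?_
          · have e : ∀ n, setdig b q d n % m = n % m := by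
              intro n
              rw [← Nat.mod_mod_of_dvd (setdig b q d n) hmq, setdig_mod, Nat.mod_mod_of_dvd _ hmq]
            rw [e, e, hmod]
          · rcases Finset.mem_insert.1 hq' with h | h
            · rw [h, dig_setdig_self hb hd, dig_setdig_self hb hd]
            · have hne : q' ≠ q := fun he => hq (he ▸ h)
              rw [dig_setdig_ne hb hd hne, dig_setdig_ne hb hd hne, hmn q' h])
          (fun n => hg1 _)
        exact ⟨u, fun _ => hu⟩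
      · exact ⟨0, fun h => absurd h hd⟩
    choose u hu using h1
    refine ⟨fun n => ∑ d ∈ range b, U b ρ q d n * u d n, ?_, fun n => ⟨?_, fun hn => ?_⟩⟩
    · have h2 := WP.sum (b := b) (K := K) (m := m) (s := range b) (Λ := 1 / √ρ * (b / √ρ) ^ #Q)
        (g := fun d n => U b ρ q d n * u d n) fun d hd => by
          refine WP.char_mul ?_ (hu d (mem_range.1 hd)).1
          obtain ⟨ι, hι, c, θ, h3, h4, h5⟩ := digit_freq b hb q d ρ hρ hρ1
          refine ⟨ι, hι, c, θ, h3, fun i => ?_, h5⟩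
          obtain ⟨r, hr⟩ := Nat.exists_eq_add_of_lt hqK
          rw [hr, show q + r + 1 = r + (q + 1) by ring, pow_add, mul_smul, h4, smul_zero]
      refine WP.mono h2 (le_of_eq ?_)
      rw [card_range, Finset.card_insert_of_notMem hq, pow_succ]
      ring
    · refine (norm_sum_le _ _).trans ?_
      rw [← sum_norm_U hb ρ q n]
      refine Finset.sum_le_sum fun d hd => ?_
      rw [norm_mul]
      exact mul_le_of_le_one_right (norm_nonneg _) ((hu d (mem_range.1 hd)).2 n).1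
    · have h3 := U_eq hb (hn q (Finset.mem_insert_self _ _))
      simp only [h3, ite_mul, one_mul, zero_mul]
      rw [Finset.sum_ite_eq, if_pos (mem_range.2 (dig_lt hb q n)),
        ((hu (dig b q n) (dig_lt hb q n)).2 n).2 fun q' hq' =>
          hn q' (Finset.mem_insert_of_mem hq'), setdig_dig hb]

/-- reduction to the digits between -/
lemma dependsMem_mod {α : Type*} {b : ℕ} (hb : 2 ≤ b) {Q : Finset ℕ} {g : ℕ → α} {r K : ℕ}
    (hr : r ≤ K) (hg : DependsMem b (b ^ r) Q g) :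
    DependsMem b (b ^ r) (Q.filter fun q => r ≤ q ∧ q < K) (fun n => g (n % b ^ K)) := by
  intro a n hmod h
  have hK : 0 < b ^ K := by positivity
  refine hg _ _ ?_ fun q hq => ?_
  · rw [Nat.mod_mod_of_dvd _ (pow_dvd_pow b hr), Nat.mod_mod_of_dvd _ (pow_dvd_pow b hr), hmod]
  · by_cases hqK : q < K
    · rw [dig_mod hqK, dig_mod hqK]
      by_cases hqr : r ≤ q
      · exact h q (mem_filter.2 ⟨hq, hqr, hqK⟩)
      · rw [← dig_mod (b := b) (n := a) (not_le.1 hqr), ← dig_mod (b := b) (n := n) (not_le.1 hqr),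
          hmod]
    · rw [dig_eq_zero hb (not_lt.1 hqK) (Nat.mod_lt a hK),
        dig_eq_zero hb (not_lt.1 hqK) (Nat.mod_lt n hK)]

/-- approximation in the mean -/
theorem mem_mean {b : ℕ} (hb : 2 ≤ b) {ρ : ℝ} (hρ : 0 < ρ) (hρ1 : ρ ≤ 1) {w r K : ℕ}
    (hr : r ≤ K) {Q : Finset ℕ} (hQ : #Q ≤ w) (g : ℕ → ℂ) (hg : DependsMem b (b ^ r) Q g)
    (hg1 : ∀ n, ‖g n‖ ≤ 1) :
    ∃ u : ℕ → ℂ, WP b K (b ^ r) ((b / √ρ) ^ w) u ∧ (∀ n, ‖u n‖ ≤ 1) ∧
      ∑ n ∈ range (b ^ K), ‖g n - u n‖ ≤ 2 * w * ρ * (b : ℝ) ^ K := by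
  classical
  set Q' := Q.filter (fun q => r ≤ q ∧ q < K) with hQ'
  have hQ'c : #Q' ≤ w := (Finset.card_filter_le _ _).trans hQ
  obtain ⟨u, hu1, hu2⟩ := mem_approx hb hρ hρ1 (K := K) (m := b ^ r) Q' (fun q hq =>
    ⟨pow_dvd_pow b (mem_filter.1 hq).2.1, (mem_filter.1 hq).2.2⟩) (fun n => g (n % b ^ K))
    (dependsMem_mod hb hr hg) (fun n => hg1 _)
  have hsq : √ρ ≤ 1 := by
    rw [Real.sqrt_le_one]
    exact hρ1
  have hsq0 : 0 < √ρ := Real.sqrt_pos.2 hρ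
  have hb1 : (1 : ℝ) ≤ b / √ρ := by
    rw [le_div_iff₀ hsq0]
    have : (2 : ℝ) ≤ b := by exact_mod_cast hb
    linarith
  refine ⟨u, WP.mono hu1 (pow_le_pow_right₀ hb1 hQ'c), fun n => (hu2 n).1, ?_⟩
  have h1 : ∀ n ∈ range (b ^ K), ‖g n - u n‖ ≤
      ∑ q ∈ Q', if ¬ n % b ^ q + ⌊ρ * (b : ℝ) ^ q⌋₊ < b ^ q then (2 : ℝ) else 0 := by
    intro n hn
    have hmod : n % b ^ K = n := Nat.mod_eq_of_lt (mem_range.1 hn)
    by_cases h : ∀ q ∈ Q', n % b ^ q + ⌊ρ * (b : ℝ) ^ q⌋₊ < b ^ q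
    · have h2 := (hu2 n).2 h
      rw [hmod] at h2
      rw [h2, sub_self, norm_zero]
      exact Finset.sum_nonneg fun q _ => by split_ifs <;> norm_num
    · push Not at h
      obtain ⟨q, hq, hq2⟩ := h
      have h3 : ‖g n - u n‖ ≤ 2 := by
        refine (norm_sub_le _ _).trans ?_
        have := hg1 n
        have := (hu2 n).1
        linarith
      refine h3.trans ?_
      have h4 := Finset.single_le_sum (f := fun q =>
        if ¬ n % b ^ q + ⌊ρ * (b : ℝ) ^ q⌋₊ < b ^ q then (2 : ℝ) else 0)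
        (fun q _ => by split_ifs <;> norm_num) hq
      rw [if_pos (not_lt.2 hq2)] at h4
      exact h4
  refine (Finset.sum_le_sum h1).trans ?_
  rw [Finset.sum_comm]
  have h5 : ∀ q ∈ Q', ∑ n ∈ range (b ^ K),
      (if ¬ n % b ^ q + ⌊ρ * (b : ℝ) ^ q⌋₊ < b ^ q then (2 : ℝ) else 0) ≤
      2 * (ρ * (b : ℝ) ^ K) := by
    intro q hq
    rw [← Finset.sum_filter, Finset.sum_const, nsmul_eq_mul, mul_comm]
    have := card_bad hb hρ.le (q := q) (K := K) (by
      have := (mem_filter.1 hq).2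
      omega)
    linarith
  refine (Finset.sum_le_sum h5).trans ?_
  rw [Finset.sum_const, nsmul_eq_mul]
  have h6 : (#Q' : ℝ) ≤ w := by exact_mod_cast hQ'c
  calc (#Q' : ℝ) * (2 * (ρ * (b : ℝ) ^ K)) ≤ w * (2 * (ρ * (b : ℝ) ^ K)) :=
        mul_le_mul_of_nonneg_right h6 (by positivity)
    _ = _ := by ring

end Pool.Agent.Helper57.ON
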