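import Pool.Agent.Helper57.ON.Mem

/-! Numerical lemmas and the choice kernel. -/

namespace Pool.Agent.Helper57.ON

open Finset
open Pool.Agent.Helper57.PC (Fr ch hat norm_ch)

lemma final_sqrt (a Λ B : ℝ) (ha : 0 < a) (hΛ : 0 < Λ) (hB : 0 < B) :
    ∃ c : ℝ, 0 < c ∧ ∀ (N : ℕ) (x κ Y s2 : ℝ), 1 ≤ N → 0 < x → 0 < κ → 0 ≤ Y →
      s2 ≤ √(2 * κ) * x → Y ^ 4 ≤ N ^ 3 * (B * (53 * κ * x ^ 2) ^ 2) →
      a * N ^ 2 * x ≤ N * s2 + 2 * (N * (Λ ^ 2 * Y)) → c * √N ≤ κ := by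
  refine ⟨min (a ^ 2 / 8) (a ^ 2 / (848 * Λ ^ 4 * √B)), by positivity, ?_⟩
  intro N x κ Y s2 hN hx hκ hY hs2 hY4 h
  have hN1 : (1 : ℝ) ≤ N := by exact_mod_cast hN
  have hN0 : (0 : ℝ) < N := by linarith
  have hsB : 0 < √B := Real.sqrt_pos.2 hB
  have h1 : a * N * x ≤ √(2 * κ) * x + 2 * (Λ ^ 2 * Y) := by
    have : N * (a * N * x) ≤ N * (√(2 * κ) * x + 2 * (Λ ^ 2 * Y)) := by
      have h2 : (N : ℝ) * s2 ≤ N * (√(2 * κ) * x) := mul_le_mul_of_nonneg_left hs2 hN0.le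
      nlinarith
    exact le_of_mul_le_mul_left this hN0
  have hsN : √(N : ℝ) ≤ N ^ 2 := by
    have h3 : √(N : ℝ) ≤ N := by
      rw [Real.sqrt_le_left hN0.le]
      nlinarith
    nlinarith
  rcases le_or_gt (a * N / 2) (√(2 * κ)) with hc | hc
  · have h4 : (a * N / 2) ^ 2 ≤ 2 * κ := by
      have := pow_le_pow_left₀ (by positivity) hc 2
      rwa [Real.sq_sqrt (by positivity)] at this
    have h5 : a ^ 2 / 8 * N ^ 2 ≤ κ := by nlinarith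
    refine le_trans ?_ h5
    exact mul_le_mul (min_le_left _ _) hsN (Real.sqrt_nonneg _) (by positivity)
  · have h6 : a * N * x / (4 * Λ ^ 2) ≤ Y := by
      rw [div_le_iff₀ (by positivity)]
      have : √(2 * κ) * x ≤ a * N / 2 * x := mul_le_mul_of_nonneg_right hc.le hx.le
      nlinarith
    have h7 := (pow_le_pow_left₀ (by positivity) h6 4).trans hY4
    have h8 : (a ^ 2 / (848 * Λ ^ 4 * √B) * √N) ^ 2 ≤ κ ^ 2 := by
      rw [mul_pow, Real.sq_sqrt hN0.le, div_pow, mul_pow, mul_pow, Real.sq_sqrt hB.le,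
        div_mul_eq_mul_div, div_le_iff₀ (by positivity)]
      have h9 : (a * N * x / (4 * Λ ^ 2)) ^ 4 = a ^ 4 * N ^ 4 * x ^ 4 / (256 * Λ ^ 8) := by
        rw [div_pow]
        congr 1 <;> ring
      rw [h9, div_le_iff₀ (by positivity)] at h7
      have h10 : (N : ℝ) ^ 3 * x ^ 4 * ((a ^ 2) ^ 2 * N) ≤
          N ^ 3 * x ^ 4 * (κ ^ 2 * (848 ^ 2 * (Λ ^ 4) ^ 2 * B)) := by
        calc (N : ℝ) ^ 3 * x ^ 4 * ((a ^ 2) ^ 2 * N) = a ^ 4 * N ^ 4 * x ^ 4 := by ring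
          _ ≤ N ^ 3 * (B * (53 * κ * x ^ 2) ^ 2) * (256 * Λ ^ 8) := h7
          _ = _ := by ring
      exact le_of_mul_le_mul_left h10 (by positivity)
    have h11 : a ^ 2 / (848 * Λ ^ 4 * √B) * √N ≤ κ :=
      le_of_pow_le_pow_left₀ two_ne_zero hκ.le h8
    refine le_trans ?_ h11
    exact mul_le_mul_of_nonneg_right (min_le_right _ _) (Real.sqrt_nonneg _)

/-- the kernel of a choice function -/
lemma kernel_choice (S D : Finset ℕ) (f : ℕ → ℕ)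
    (hf : ∀ n ∈ D, f n ≤ n ∧ f n ∈ S ∧ n - f n ∈ S) (N : ℕ) (ψ : ℕ → Fr) (g : ℕ → ℕ → ℂ) :
    ∃ ω : ℕ → ℂ, (∀ i, ‖ω i‖ ≤ 1) ∧
      (∑ i ∈ range N, ‖∑ n ∈ D, ch (f n) (ψ i) * (starRingEnd ℂ) (g i n)‖) ^ 2 ≤
      #D * ∑ p ∈ S ×ˢ S, ‖∑ i ∈ range N, ω i *
        (ch p.1 (ψ i) * (starRingEnd ℂ) (g i (p.1 + p.2)))‖ ^ 2 := by
  classical
  set C : ℕ → ℂ := fun i => ∑ n ∈ D, ch (f n) (ψ i) * (starRingEnd ℂ) (g i n) with hC
  have hω : ∀ i, ∃ w : ℂ, ‖w‖ ≤ 1 ∧ w * C i = (‖C i‖ : ℂ) := by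
    intro i
    by_cases h0 : C i = 0
    · exact ⟨0, by simp, by simp [h0]⟩
    · refine ⟨(‖C i‖ : ℂ) / C i, ?_, div_mul_cancel₀ _ h0⟩
      rw [norm_div, Complex.norm_real, norm_norm, div_self (norm_ne_zero_iff.2 h0)]
  choose ω hω1 hω2 using hω
  refine ⟨ω, hω1, ?_⟩
  set V : ℕ × ℕ → ℂ := fun p => ∑ i ∈ range N, ω i *
    (ch p.1 (ψ i) * (starRingEnd ℂ) (g i (p.1 + p.2))) with hV
  have e : ((∑ i ∈ range N, ‖C i‖ : ℝ) : ℂ) = ∑ n ∈ D, V (f n, n - f n) := by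
    push_cast
    simp_rw [← hω2, hC, Finset.mul_sum]
    rw [Finset.sum_comm]
    refine Finset.sum_congr rfl fun n hn => ?_
    simp only [hV]
    rw [Nat.add_sub_cancel' (hf n hn).1]
  have h1 : ∑ i ∈ range N, ‖C i‖ ≤ ∑ n ∈ D, 1 * ‖V (f n, n - f n)‖ := by
    have h2 : ∑ i ∈ range N, ‖C i‖ ≤ ‖((∑ i ∈ range N, ‖C i‖ : ℝ) : ℂ)‖ := by
      rw [Complex.norm_real]
      exact le_abs_self _
    rw [e] at h2
    refine h2.trans ((norm_sum_le _ _).trans (le_of_eq ?_))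
    simp only [one_mul]
  have h3 : (∑ i ∈ range N, ‖C i‖) ^ 2 ≤ #D * ∑ n ∈ D, ‖V (f n, n - f n)‖ ^ 2 := by
    refine (pow_le_pow_left₀ (Finset.sum_nonneg fun _ _ => norm_nonneg _) h1 2).trans ?_
    refine (Finset.sum_mul_sq_le_sq_mul_sq _ _ _).trans (le_of_eq ?_)
    rw [Finset.sum_const, one_pow, nsmul_eq_mul, mul_one]
  refine h3.trans (mul_le_mul_of_nonneg_left ?_ (Nat.cast_nonneg _))
  have hinj : Set.InjOn (fun n => (f n, n - f n)) (D : Set ℕ) := by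
    intro m hm n hn he
    simp only [Prod.mk.injEq] at he
    have h1 := (hf m hm).1
    have h2 := (hf n hn).1
    omega
  rw [← Finset.sum_image (f := fun p => ‖V p‖ ^ 2) hinj]
  refine Finset.sum_le_sum_of_subset_of_nonneg ?_ fun _ _ _ => sq_nonneg _
  intro p hp
  obtain ⟨n, hn, rfl⟩ := Finset.mem_image.1 hp
  exact mem_product.2 ⟨(hf n hn).2.1, (hf n hn).2.2⟩

end Pool.Agent.Helper57.ON
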