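import Mathlib

set_option autoImplicit false

/-! A potential on the levels of a periodic function. -/

namespace Pool.Agent.Helper57.ON

open Finset

lemma sum_range_mul' (m n : ℕ) (hm : 0 < m) (f : ℕ → ℝ) :
    ∑ a ∈ range (m * n), f a = ∑ a ∈ range m, ∑ t ∈ range n, f (a + t * m) := by
  rw [← Finset.sum_product']
  refine Finset.sum_nbij' (fun a => (a % m, a / m)) (fun p => p.1 + p.2 * m) ?_ ?_ ?_ ?_ ?_
  · intro a ha
    rw [mem_range] at ha
    rw [mem_product, mem_range, mem_range]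
    refine ⟨Nat.mod_lt _ hm, ?_⟩
    rw [Nat.div_lt_iff_lt_mul hm, mul_comm]
    exact ha
  · intro p hp
    rw [mem_product, mem_range, mem_range] at hp
    rw [mem_range]
    have h1 : (p.2 + 1) * m ≤ n * m := Nat.mul_le_mul_right _ hp.2
    nlinarith [hp.1]
  · intro a _
    have := Nat.mod_add_div a m
    rw [mul_comm] at this
    exact this
  · intro p hp
    rw [mem_product, mem_range, mem_range] at hp
    ext
    · rw [Nat.add_mul_mod_self_right, Nat.mod_eq_of_lt hp.1]
    · rw [Nat.add_mul_div_right _ _ hm, Nat.div_eq_of_lt hp.1, zero_add]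
  · intro a _
    have := Nat.mod_add_div a m
    rw [mul_comm] at this
    rw [this]

/-- cyclic shifts -/
lemma cyc {s n : ℕ} (w : ℕ → ℝ) (hw : ∀ j, w (j + s * n) = w j) (z c : ℕ) :
    ∑ t ∈ range n, w (z + c * s + t * s) = ∑ t ∈ range n, w (z + t * s) := by
  induction c with
  | zero => simp
  | succ c ih =>
    rw [← ih]
    have h1 := Finset.sum_range_succ (fun t => w (z + c * s + t * s)) n
    have h2 := Finset.sum_range_succ' (fun t => w (z + c * s + t * s)) n
    have h3 : w (z + c * s + n * s) = w (z + c * s + 0 * s) := by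
      rw [mul_comm n s, hw, zero_mul, add_zero]
    rw [h1, h3] at h2
    have h4 := add_right_cancel h2
    rw [h4]
    refine Finset.sum_congr rfl fun t _ => ?_
    congr 1
    ring

section

variable (b K : ℕ) (v : ℕ → ℝ)

/-- the mass of a coset -/
def mu (i y : ℕ) : ℝ := ∑ t ∈ range (b ^ i), v (y + t * b ^ (K - i)) ^ 2

/-- the potential -/
def Phi (i : ℕ) : ℝ := ∑ y ∈ range (b ^ (K - i)), mu b K v i y ^ 2

end

variable {b K : ℕ} {v : ℕ → ℝ}

lemma mu_nonneg (i y : ℕ) : 0 ≤ mu b K v i y := Finset.sum_nonneg fun _ _ => sq_nonneg _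

lemma mu_shift (hv : ∀ j, v (j + b ^ K) = v j) {i : ℕ} (hi : i ≤ K) (z c : ℕ) :
    mu b K v i (z + c * b ^ (K - i)) = mu b K v i z := by
  unfold mu
  refine cyc (s := b ^ (K - i)) (n := b ^ i) (fun j => v j ^ 2) (fun j => ?_) z c
  rw [← pow_add, Nat.sub_add_cancel hi]
  simp only [hv]

lemma mu_split (hb : 0 < b) {i h : ℕ} (hih : i + h ≤ K) (z : ℕ) :
    mu b K v (i + h) z = ∑ t ∈ range (b ^ h), mu b K v i (z + t * b ^ (K - (i + h))) := by
  unfold mu
  rw [show b ^ (i + h) = b ^ h * b ^ i by rw [← pow_add, add_comm],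
    sum_range_mul' _ _ (by positivity)]
  refine Finset.sum_congr rfl fun t _ => Finset.sum_congr rfl fun t' _ => ?_
  congr 2
  have h1 : b ^ (K - i) = b ^ h * b ^ (K - (i + h)) := by
    rw [← pow_add]
    congr 1
    omega
  rw [h1]
  ring

lemma Phi_split (hb : 0 < b) {i h : ℕ} (hih : i + h ≤ K) :
    Phi b K v i = ∑ z ∈ range (b ^ (K - (i + h))), ∑ t ∈ range (b ^ h),
      mu b K v i (z + t * b ^ (K - (i + h))) ^ 2 := by
  unfold Phi
  have h1 : b ^ (K - i) = b ^ (K - (i + h)) * b ^ h := by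
    rw [← pow_add]
    congr 1
    omega
  rw [h1, sum_range_mul' _ _ (by positivity)]

/-- squares of sums of nonnegative numbers -/
lemma sum_sq_add_le {n : ℕ} (a : ℕ → ℝ) (ha : ∀ t, 0 ≤ a t) (σ : ℕ → ℕ)
    (hσ : ∀ t ∈ range n, σ t ∈ range n ∧ σ t ≠ t) :
    ∑ t ∈ range n, a t ^ 2 + ∑ t ∈ range n, a (σ t) * a t ≤ (∑ t ∈ range n, a t) ^ 2 := by
  rw [← Finset.sum_add_distrib, sq, Finset.sum_mul_sum]
  refine Finset.sum_le_sum fun t ht => ?_
  have h1 := (hσ t ht).1
  have h2 := (hσ t ht).2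
  have h3 : a t * a t + a t * a (σ t) ≤ ∑ s ∈ range n, a t * a s := by
    have h4 : ∑ s ∈ ({t, σ t} : Finset ℕ), a t * a s ≤ ∑ s ∈ range n, a t * a s := by
      refine Finset.sum_le_sum_of_subset_of_nonneg ?_ fun s _ _ => mul_nonneg (ha _) (ha _)
      intro s hs
      rcases Finset.mem_insert.1 hs with h | h
      · rw [h]; exact ht
      · rw [Finset.mem_singleton.1 h]; exact h1
    rw [Finset.sum_pair (Ne.symm h2)] at h4
    exact h4
  linarith

lemma sum_sq_le {n : ℕ} (a : ℕ → ℝ) (ha : ∀ t, 0 ≤ a t) :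
    ∑ t ∈ range n, a t ^ 2 ≤ (∑ t ∈ range n, a t) ^ 2 := by
  rw [sq, Finset.sum_mul_sum]
  refine Finset.sum_le_sum fun t ht => ?_
  have := Finset.single_le_sum (f := fun s => a t * a s) (fun s _ => mul_nonneg (ha t) (ha s)) ht
  rw [sq]
  exact this

lemma Phi_mono (hb : 0 < b) {i h : ℕ} (hih : i + h ≤ K) : Phi b K v i ≤ Phi b K v (i + h) := by
  rw [Phi_split hb hih]
  unfold Phi
  refine Finset.sum_le_sum fun z _ => ?_
  rw [mu_split hb hih]
  exact sum_sq_le _ fun t => mu_nonneg _ _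

/-- one step of the potential -/
lemma Phi_step (hb : 0 < b) {i h z : ℕ} (hih : i + h ≤ K) (hz : z < b ^ (K - (i + h)))
    (σ : ℕ → ℕ) (hσ : ∀ t ∈ range (b ^ h), σ t ∈ range (b ^ h) ∧ σ t ≠ t) :
    ∑ t ∈ range (b ^ h), mu b K v i (z + σ t * b ^ (K - (i + h))) *
      mu b K v i (z + t * b ^ (K - (i + h))) ≤ Phi b K v (i + h) - Phi b K v i := by
  rw [Phi_split hb hih]
  unfold Phi
  rw [← Finset.sum_sub_distrib]
  have h1 : ∀ z' ∈ range (b ^ (K - (i + h))), 0 ≤ mu b K v (i + h) z' ^ 2 -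
      ∑ t ∈ range (b ^ h), mu b K v i (z' + t * b ^ (K - (i + h))) ^ 2 := by
    intro z' _
    rw [mu_split hb hih, sub_nonneg]
    exact sum_sq_le _ fun t => mu_nonneg _ _
  refine le_trans ?_ (Finset.single_le_sum h1 (mem_range.2 hz))
  have h2 := sum_sq_add_le (fun t => mu b K v i (z + t * b ^ (K - (i + h))))
    (fun t => mu_nonneg _ _) σ hσ
  rw [mu_split hb hih]
  linarith

/-- The overlap of a periodic function with a translate is bounded by the step of the
potential. -/
theorem overlap_le (hb : 0 < b) (hv : ∀ j, v (j + b ^ K) = v j) {i h : ℕ}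
    (hih : i + h ≤ K) (z g : ℕ) (hg : ¬ b ^ h ∣ g) :
    (∑ t ∈ range (b ^ (i + h)), v (z + t * b ^ (K - (i + h)) + g * b ^ (K - (i + h))) *
      v (z + t * b ^ (K - (i + h)))) ^ 2 ≤ b ^ h * (Phi b K v (i + h) - Phi b K v i) := by
  set s := b ^ (K - (i + h)) with hs
  have hs0 : 0 < s := by positivity
  have hbh : 0 < b ^ h := by positivity
  have hsK : s * b ^ (i + h) = b ^ K := by
    rw [hs, ← pow_add]
    congr 1
    omega
  have hsi : b ^ (K - i) = b ^ h * s := by
    rw [hs, ← pow_add]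
    congr 1
    omega
  -- reduce z
  set z₀ := z % s with hz₀
  have hz : z = z₀ + z / s * s := by
    rw [hz₀]
    have := Nat.mod_add_div z s
    rw [mul_comm] at this
    exact this.symm
  have hw : ∀ j, v (j + s * b ^ (i + h) + g * s) * v (j + s * b ^ (i + h)) =
      v (j + g * s) * v j := by
    intro j
    rw [hsK, hv, show j + b ^ K + g * s = j + g * s + b ^ K by ring, hv]
  have h1 : ∑ t ∈ range (b ^ (i + h)), v (z + t * s + g * s) * v (z + t * s) =
      ∑ t ∈ range (b ^ (i + h)), v (z₀ + t * s + g * s) * v (z₀ + t * s) := by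
    conv_lhs => rw [hz]
    exact cyc (s := s) (n := b ^ (i + h)) (fun j => v (j + g * s) * v j) hw z₀ (z / s)
  rw [h1]
  -- split the sum
  have h2 : ∑ t ∈ range (b ^ (i + h)), v (z₀ + t * s + g * s) * v (z₀ + t * s) =
      ∑ t ∈ range (b ^ h), ∑ t' ∈ range (b ^ i),
        v (z₀ + (t + g) * s + t' * b ^ (K - i)) * v (z₀ + t * s + t' * b ^ (K - i)) := by
    rw [show b ^ (i + h) = b ^ h * b ^ i by rw [← pow_add, add_comm], sum_range_mul' _ _ hbh]
    refine Finset.sum_congr rfl fun t _ => Finset.sum_congr rfl fun t' _ => ?_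
    rw [hsi]
    congr 2 <;> ring
  rw [h2]
  set x : ℕ → ℝ := fun t => ∑ t' ∈ range (b ^ i),
        v (z₀ + (t + g) * s + t' * b ^ (K - i)) * v (z₀ + t * s + t' * b ^ (K - i)) with hx
  have h3 : ∀ t, x t ^ 2 ≤ mu b K v i (z₀ + (t + g) % b ^ h * s) * mu b K v i (z₀ + t * s) := by
    intro t
    have h4 := Finset.sum_mul_sq_le_sq_mul_sq (range (b ^ i))
      (fun t' => v (z₀ + (t + g) * s + t' * b ^ (K - i)))
      (fun t' => v (z₀ + t * s + t' * b ^ (K - i)))
    have h5 : mu b K v i (z₀ + (t + g) % b ^ h * s) = mu b K v i (z₀ + (t + g) * s) := by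
      have h6 : z₀ + (t + g) * s =
          z₀ + (t + g) % b ^ h * s + (t + g) / b ^ h * b ^ (K - i) := by
        rw [hsi]
        have h7 := Nat.mod_add_div (t + g) (b ^ h)
        calc z₀ + (t + g) * s = z₀ + ((t + g) % b ^ h + b ^ h * ((t + g) / b ^ h)) * s := by
              rw [h7]
          _ = _ := by ring
      rw [h6, mu_shift hv (by omega)]
    rw [h5]
    exact h4
  have h8 := Finset.sum_mul_sq_le_sq_mul_sq (range (b ^ h)) (fun _ => (1 : ℝ)) x
  simp only [one_mul, one_pow, Finset.sum_const, card_range, nsmul_eq_mul, mul_one] at h8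
  refine h8.trans ?_
  push_cast
  refine mul_le_mul_of_nonneg_left ?_ (by positivity)
  refine (Finset.sum_le_sum fun t _ => h3 t).trans ?_
  refine Phi_step hb hih (Nat.mod_lt _ hs0) (fun t => (t + g) % b ^ h) fun t ht => ?_
  rw [mem_range] at ht
  refine ⟨mem_range.2 (Nat.mod_lt _ hbh), fun h9 => hg ?_⟩
  have h10 : (t + g) % b ^ h = (t + 0) % b ^ h := by
    rw [add_zero, Nat.mod_eq_of_lt ht]
    exact h9
  have h11 : g ≡ 0 [MOD b ^ h] := Nat.ModEq.add_left_cancel' t h10
  exact (Nat.modEq_zero_iff_dvd).1 h11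

/-- telescoping -/
theorem sum_Phi_le (hb : 0 < b) {n : ℕ} (h : ℕ) (hn : n + h ≤ K) :
    ∑ i ∈ range n, (Phi b K v (i + h) - Phi b K v i) ≤ h * Phi b K v K := by
  have hle : ∀ j ≤ K, Phi b K v j ≤ Phi b K v K := by
    intro j hj
    have := Phi_mono (K := K) (v := v) hb (i := j) (h := K - j) (by omega)
    rwa [Nat.add_sub_cancel' hj] at this
  have h0 : ∀ j, 0 ≤ Phi b K v j := fun j => Finset.sum_nonneg fun _ _ => sq_nonneg _
  induction h with
  | zero => simp
  | succ h ih =>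
    have h1 := ih (by omega)
    have h2 := Finset.sum_range_succ (fun i => Phi b K v (i + h)) n
    have h3 := Finset.sum_range_succ' (fun i => Phi b K v (i + h)) n
    rw [h2] at h3
    rw [Finset.sum_sub_distrib] at h1 ⊢
    have h4 : ∑ i ∈ range n, Phi b K v (i + 1 + h) = ∑ i ∈ range n, Phi b K v (i + (h + 1)) :=
      Finset.sum_congr rfl fun i _ => by congr 1; ring
    rw [h4] at h3
    have h5 := hle (n + h) (by omega)
    have h6 := h0 (0 + h)
    push_cast
    linarith

lemma Phi_top : Phi b K v K = (∑ t ∈ range (b ^ K), v t ^ 2) ^ 2 := by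
  unfold Phi mu
  rw [Nat.sub_self, pow_zero, Finset.sum_range_one]
  simp

end Pool.Agent.Helper57.ON
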